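import Pool.Agent.Lib.MP_fdf47d_co.Lower

/-!
# Affine images of boxes
-/

set_option autoImplicit false

open Finset

namespace Pool.Agent.Lib.MP_fdf47d_co

variable {p : ℕ}

/-- the affine map `x ↦ u + x₁ v + x₂ w` -/
def aff (u v w x : ZMod p × ZMod p) : ZMod p × ZMod p := u + x.1 • v + x.2 • w

theorem aff_fst (u v w x : ZMod p × ZMod p) :
    (aff u v w x).1 = u.1 + x.1 * v.1 + x.2 * w.1 := rfl

theorem aff_snd (u v w x : ZMod p × ZMod p) :
    (aff u v w x).2 = u.2 + x.1 * v.2 + x.2 * w.2 := rfl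

/-- the grid `{u + i v + j w : 0 ≤ i < A, 0 ≤ j < B}` -/
def grid (u v w : ZMod p × ZMod p) (A B : ℕ) : Finset (ZMod p × ZMod p) :=
  (range A ×ˢ range B).image (fun q => u + (q.1 : ZMod p) • v + (q.2 : ZMod p) • w)

open Classical in
/-- the number of incidences -/
noncomputable def inc (P : Finset (ZMod p × ZMod p)) (L : Finset (Set (ZMod p × ZMod p))) : ℕ :=
  ((P ×ˢ L).filter (fun q => q.1 ∈ q.2)).card

open Classical in
theorem inc_eq (P : Finset (ZMod p × ZMod p)) (L : Finset (Set (ZMod p × ZMod p))) :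
    inc P L = ∑ l ∈ L, (P.filter (fun x => x ∈ l)).card := by
  unfold inc
  simp only [card_filter]
  rw [sum_product_right]

variable [Fact p.Prime]

theorem isLine_preimage {u v w : ZMod p × ZMod p} (hd : v.1 * w.2 - v.2 * w.1 ≠ 0)
    {l : Set (ZMod p × ZMod p)} (hl : IsLine l) : IsLine (aff u v w ⁻¹' l) := by
  obtain ⟨a, b, c, hab, rfl⟩ := hl
  refine ⟨a * v.1 + b * v.2, a * w.1 + b * w.2, a * u.1 + b * u.2 + c, ?_, ?_⟩
  · by_contra hcon
    push Not at hcon
    obtain ⟨h1, h2⟩ := hcon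
    have ha : a = 0 := by
      apply (mul_eq_zero.1 (show a * (v.1 * w.2 - v.2 * w.1) = 0 by
        linear_combination w.2 * h1 - v.2 * h2)).resolve_right hd
    have hb : b = 0 := by
      apply (mul_eq_zero.1 (show b * (v.1 * w.2 - v.2 * w.1) = 0 by
        linear_combination v.1 * h2 - w.1 * h1)).resolve_right hd
    rcases hab with h | h
    · exact h ha
    · exact h hb
  · ext x
    rw [Set.mem_preimage, mem_ln, mem_ln, aff_fst, aff_snd]
    constructor
    · intro h
      linear_combination h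
    · intro h
      linear_combination h

theorem exists_inverse {u v w : ZMod p × ZMod p} (hd : v.1 * w.2 - v.2 * w.1 ≠ 0) :
    ∃ u' v' w' : ZMod p × ZMod p, v'.1 * w'.2 - v'.2 * w'.1 ≠ 0 ∧
      (∀ x, aff u' v' w' (aff u v w x) = x) ∧ ∀ y, aff u v w (aff u' v' w' y) = y := by
  set d := v.1 * w.2 - v.2 * w.1 with hdd
  have hd' : v.1 * w.2 - v.2 * w.1 = d := hdd.symm
  refine ⟨((-u.1 * w.2 + u.2 * w.1) / d, (u.1 * v.2 - u.2 * v.1) / d), (w.2 / d, -v.2 / d),
    (-w.1 / d, v.1 / d), ?_, ?_, ?_⟩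
  · have : w.2 / d * (v.1 / d) - -v.2 / d * (-w.1 / d) = 1 / d := by
      field_simp
      linear_combination hd'
    simp only
    rw [this]
    exact one_div_ne_zero hd
  · intro x
    apply Prod.ext
    · rw [aff_fst, aff_fst, aff_snd]
      simp only
      field_simp
      linear_combination x.1 * hd'
    · rw [aff_snd, aff_fst, aff_snd]
      simp only
      field_simp
      linear_combination x.2 * hd'
  · intro y
    apply Prod.ext
    · rw [aff_fst, aff_fst, aff_snd]
      simp only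
      field_simp
      linear_combination (y.1 - u.1) * hd'
    · rw [aff_snd, aff_fst, aff_snd]
      simp only
      field_simp
      linear_combination (y.2 - u.2) * hd'

theorem aff_cst (u v w : ZMod p × ZMod p) (i j : ℕ) :
    aff u v w (cst p ((i : ℤ), (j : ℤ))) = u + (i : ZMod p) • v + (j : ZMod p) • w := by
  unfold aff cst
  simp only [Int.cast_natCast]

open Classical in
/-- points of a subset of a grid on a line -/
theorem card_filter_le_pts {u v w : ZMod p × ZMod p} (A B : ℕ)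
    (P : Finset (ZMod p × ZMod p)) (hP : P ⊆ grid u v w A B) (l : Set (ZMod p × ZMod p)) :
    (P.filter (fun x => x ∈ l)).card ≤ (pts A B (aff u v w ⁻¹' l)).card := by
  have hsub : P.filter (fun x => x ∈ l) ⊆
      (pts A B (aff u v w ⁻¹' l)).image (fun z => aff u v w (cst p z)) := by
    intro x hx
    obtain ⟨hxP, hxl⟩ := mem_filter.1 hx
    have := hP hxP
    unfold grid at this
    obtain ⟨q, hq, rfl⟩ := mem_image.1 this
    rw [mem_product, mem_range, mem_range] at hq
    rw [mem_image]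
    refine ⟨((q.1 : ℤ), (q.2 : ℤ)), ?_, aff_cst _ _ _ _ _⟩
    rw [mem_pts, mem_box]
    refine ⟨?_, ?_⟩
    · simp only
      omega
    · rw [Set.mem_preimage, aff_cst]
      exact hxl
  exact (card_le_card hsub).trans card_image_le

theorem cst_inj {A B : ℕ} (hA : A ≤ p) (hB : B ≤ p) {x y : ℤ × ℤ} (hx : x ∈ box A B)
    (hy : y ∈ box A B) (h : cst p x = cst p y) : x = y := by
  by_contra hne
  exact cst_sub_ne hA hB hx hy hne (sub_eq_zero.2 h)

open Classical in
/-- points of a grid on a line -/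
theorem pts_le_card_filter {u v w : ZMod p × ZMod p} (hd : v.1 * w.2 - v.2 * w.1 ≠ 0) (A B : ℕ)
    (hA : A ≤ p) (hB : B ≤ p) (l : Set (ZMod p × ZMod p)) :
    (pts A B (aff u v w ⁻¹' l)).card ≤ ((grid u v w A B).filter (fun x => x ∈ l)).card := by
  obtain ⟨u', v', w', _, h1, _⟩ := exists_inverse (u := u) hd
  apply card_le_card_of_injOn (fun z => aff u v w (cst p z))
  · intro z hz
    rw [mem_coe, mem_pts] at hz
    rw [mem_coe, mem_filter]
    refine ⟨?_, hz.2⟩
    unfold grid
    rw [mem_image]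
    rw [mem_box] at hz
    refine ⟨(z.1.toNat, z.2.toNat), ?_, ?_⟩
    · rw [mem_product, mem_range, mem_range]
      simp only
      omega
    · simp only
      rw [← aff_cst, Int.toNat_of_nonneg hz.1.1.1, Int.toNat_of_nonneg hz.1.2.1]
  · intro z hz z' hz' h
    rw [mem_coe, mem_pts] at hz hz'
    have h2 : cst p z = cst p z' := by
      have := congrArg (aff u' v' w') h
      simp only at this
      rwa [h1, h1] at this
    exact cst_inj hA hB hz.1 hz'.1 h2

/-- pulling back lines -/
theorem inc_le_pull {u v w : ZMod p × ZMod p} (hd : v.1 * w.2 - v.2 * w.1 ≠ 0) (A B : ℕ)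
    (P : Finset (ZMod p × ZMod p)) (hP : P ⊆ grid u v w A B)
    (L : Finset (Set (ZMod p × ZMod p))) (hL : ∀ l ∈ L, IsLine l) :
    ∃ L' : Finset (Set (ZMod p × ZMod p)), (∀ l ∈ L', IsLine l) ∧ L'.card = L.card ∧
      inc P L ≤ ∑ l ∈ L', (pts A B l).card := by
  classical
  obtain ⟨u', v', w', _, _, h2⟩ := exists_inverse (u := u) hd
  have hinj : Set.InjOn (fun l : Set (ZMod p × ZMod p) => aff u v w ⁻¹' l) (L : Set _) := by
    intro l _ l' _ h
    ext y
    have : aff u' v' w' y ∈ aff u v w ⁻¹' l ↔ aff u' v' w' y ∈ aff u v w ⁻¹' l' := by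
      simp only at h
      rw [h]
    rwa [Set.mem_preimage, Set.mem_preimage, h2] at this
  refine ⟨L.image (fun l => aff u v w ⁻¹' l), ?_, card_image_of_injOn hinj, ?_⟩
  · intro l hl
    obtain ⟨l0, hl0, rfl⟩ := mem_image.1 hl
    exact isLine_preimage hd (hL l0 hl0)
  · rw [inc_eq, sum_image hinj]
    apply sum_le_sum
    intro l _
    exact card_filter_le_pts A B P hP l

/-- pushing lines forward -/
theorem push_le_inc {u v w : ZMod p × ZMod p} (hd : v.1 * w.2 - v.2 * w.1 ≠ 0) (A B : ℕ)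
    (hA : A ≤ p) (hB : B ≤ p)
    (L : Finset (Set (ZMod p × ZMod p))) (hL : ∀ l ∈ L, IsLine l) :
    ∃ L' : Finset (Set (ZMod p × ZMod p)), (∀ l ∈ L', IsLine l) ∧ L'.card = L.card ∧
      ∑ l ∈ L, (pts A B l).card ≤ inc (grid u v w A B) L' := by
  classical
  obtain ⟨u', v', w', hd', h1, h2⟩ := exists_inverse (u := u) hd
  have hback : ∀ l : Set (ZMod p × ZMod p), aff u v w ⁻¹' (aff u' v' w' ⁻¹' l) = l := by
    intro l
    ext x
    rw [Set.mem_preimage, Set.mem_preimage, h1]
  have hinj : Set.InjOn (fun l : Set (ZMod p × ZMod p) => aff u' v' w' ⁻¹' l) (L : Set _) := by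
    intro l _ l' _ h
    rw [← hback l, ← hback l']
    simp only at h
    rw [h]
  refine ⟨L.image (fun l => aff u' v' w' ⁻¹' l), ?_, card_image_of_injOn hinj, ?_⟩
  · intro l hl
    obtain ⟨l0, hl0, rfl⟩ := mem_image.1 hl
    exact isLine_preimage hd' (hL l0 hl0)
  · rw [inc_eq, sum_image hinj]
    apply sum_le_sum
    intro l _
    have := pts_le_card_filter (u := u) hd A B hA hB (aff u' v' w' ⁻¹' l)
    rwa [hback] at this

theorem rpow_cube {x : ℝ} (hx : 0 ≤ x) : (x ^ (2 / 3 : ℝ)) ^ 3 = x ^ 2 := by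
  rw [← Real.rpow_natCast, ← Real.rpow_mul hx]
  norm_num

end Pool.Agent.Lib.MP_fdf47d_co
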