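import Mathlib

section

/-!
# Points of a box on a line modulo `p`: the shortest difference vector

If all differences of the points of `S ⊆ [0, A) × [0, B)` are parallel modulo `p` and `(a, b)` is
the shortest difference (in the norm `max (|a| / A) (|b| / B)`), then `S` has at most
`(2 |a| B / p + 1) (A / |a| + 1)` elements (if `|a| / A ≥ |b| / B`).
-/

set_option autoImplicit false

open Finset

namespace Pool.Agent.Lib.MP_fdf47d_co

theorem core_count (S : Finset (ℤ × ℤ)) (A B p : ℕ) (hp : 0 < p)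
    (hS : ∀ z ∈ S, (0 ≤ z.1 ∧ z.1 < A) ∧ 0 ≤ z.2 ∧ z.2 < B)
    (a b : ℤ) (ha : a ≠ 0)
    (hdet : ∀ z ∈ S, ∀ w ∈ S, (p : ℤ) ∣ a * (z.2 - w.2) - b * (z.1 - w.1))
    (hmin : ∀ z ∈ S, ∀ w ∈ S, z ≠ w → |a| * B ≤ |z.1 - w.1| * B ∨ |a| * B ≤ |z.2 - w.2| * A)
    (hab : |b| * A ≤ |a| * B) :
    (S.card : ℝ) ≤ (2 * |(a : ℝ)| * B / p + 1) * (A / |(a : ℝ)| + 1) := by
  classical
  have ha0 : 0 < |a| := abs_pos.2 ha
  have haR : (0 : ℝ) < |(a : ℝ)| := by
    have : (0 : ℝ) < ((|a| : ℤ) : ℝ) := by exact_mod_cast ha0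
    rwa [Int.cast_abs] at this
  have hpR : (0 : ℝ) < p := by exact_mod_cast hp
  rcases S.eq_empty_or_nonempty with hS0 | hne
  · rw [hS0, card_empty, Nat.cast_zero]
    positivity
  obtain ⟨z0, hz0, hz0min⟩ := S.exists_min_image (fun z => a * z.2 - b * z.1) hne
  set X : ℕ := 2 * a.natAbs * B / p with hX
  set Y : ℕ := A / a.natAbs with hY
  set s : ℤ × ℤ → ℕ := fun z => ((a * z.2 - b * z.1 - (a * z0.2 - b * z0.1)) / p).toNat with hs
  set r : ℤ × ℤ → ℕ := fun z => (z.1 / |a|).toNat with hr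
  have hpZ : (0 : ℤ) < p := by exact_mod_cast hp
  have hnatabs : ((a.natAbs : ℕ) : ℤ) = |a| := Int.natCast_natAbs a
  have hcard : S.card ≤ (range (X + 1) ×ˢ range (Y + 1)).card := by
    apply Finset.card_le_card_of_injOn (fun z => (s z, r z))
    · intro z hz
      have hz' : z ∈ S := hz
      obtain ⟨⟨h1, h2⟩, h3, h4⟩ := hS z hz'
      obtain ⟨⟨g1, g2⟩, g3, g4⟩ := hS z0 hz0
      have hbound : a * z.2 - b * z.1 - (a * z0.2 - b * z0.1) ≤ 2 * |a| * B := by
        have e1 : a * z.2 - b * z.1 - (a * z0.2 - b * z0.1)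
            = a * (z.2 - z0.2) - b * (z.1 - z0.1) := by ring
        have e2 : a * (z.2 - z0.2) ≤ |a| * B := by
          calc a * (z.2 - z0.2) ≤ |a * (z.2 - z0.2)| := le_abs_self _
            _ = |a| * |z.2 - z0.2| := abs_mul _ _
            _ ≤ |a| * B := by
                apply mul_le_mul_of_nonneg_left _ (abs_nonneg _)
                rw [abs_le]; constructor <;> linarith
        have e3 : -(b * (z.1 - z0.1)) ≤ |b| * A := by
          calc -(b * (z.1 - z0.1)) ≤ |b * (z.1 - z0.1)| := neg_le_abs _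
            _ = |b| * |z.1 - z0.1| := abs_mul _ _
            _ ≤ |b| * A := by
                apply mul_le_mul_of_nonneg_left _ (abs_nonneg _)
                rw [abs_le]; constructor <;> linarith
        rw [e1]
        linarith
      simp only [coe_product, Set.mem_prod, coe_range, Set.mem_Iio]
      constructor
      · have h5 : s z ≤ X := by
          have h6 : (a * z.2 - b * z.1 - (a * z0.2 - b * z0.1)) / (p : ℤ) ≤ (X : ℤ) := by
            have h7 : ((X : ℕ) : ℤ) = (2 * |a| * B) / p := by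
              rw [hX]
              push_cast
              rfl
            rw [h7]
            exact Int.ediv_le_ediv hpZ hbound
          rw [hs]
          exact Int.toNat_le.2 h6
        omega
      · have h5 : r z ≤ Y := by
          have h6 : z.1 / |a| ≤ (Y : ℤ) := by
            have h7 : ((Y : ℕ) : ℤ) = (A : ℤ) / |a| := by
              rw [hY]
              push_cast
              rfl
            rw [h7]
            exact Int.ediv_le_ediv ha0 (by linarith)
          rw [hr]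
          exact Int.toNat_le.2 h6
        omega
    · intro z hz w hw hzw
      have hz' : z ∈ S := hz
      have hw' : w ∈ S := hw
      obtain ⟨⟨h1, h2⟩, h3, h4⟩ := hS z hz'
      obtain ⟨⟨g1, g2⟩, g3, g4⟩ := hS w hw'
      have hsz : s z = s w := congrArg Prod.fst hzw
      have hrz : r z = r w := congrArg Prod.snd hzw
      -- the determinants agree
      have hval : ∀ x ∈ S, a * x.2 - b * x.1 - (a * z0.2 - b * z0.1) = p * (s x : ℤ) := by
        intro x hx
        have k1 : (p : ℤ) ∣ a * x.2 - b * x.1 - (a * z0.2 - b * z0.1) := by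
          have := hdet x hx z0 hz0
          have e1 : a * x.2 - b * x.1 - (a * z0.2 - b * z0.1)
            = a * (x.2 - z0.2) - b * (x.1 - z0.1) := by ring
          rw [e1]
          exact this
        have k2 : 0 ≤ a * x.2 - b * x.1 - (a * z0.2 - b * z0.1) := by
          have := hz0min x hx
          linarith
        have k3 : 0 ≤ (a * x.2 - b * x.1 - (a * z0.2 - b * z0.1)) / (p : ℤ) :=
          Int.ediv_nonneg k2 hpZ.le
        have k4 : ((s x : ℕ) : ℤ) = (a * x.2 - b * x.1 - (a * z0.2 - b * z0.1)) / (p : ℤ) := by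
          rw [hs]
          exact Int.toNat_of_nonneg k3
        rw [k4]
        exact (Int.mul_ediv_cancel' k1).symm
      have hdz : a * (z.2 - w.2) = b * (z.1 - w.1) := by
        have k1 := hval z hz'
        have k2 := hval w hw'
        rw [hsz] at k1
        linarith
      have hrr : z.1 / |a| = w.1 / |a| := by
        have k1 : ((r z : ℕ) : ℤ) = z.1 / |a| := Int.toNat_of_nonneg (Int.ediv_nonneg h1 ha0.le)
        have k2 : ((r w : ℕ) : ℤ) = w.1 / |a| := Int.toNat_of_nonneg (Int.ediv_nonneg g1 ha0.le)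
        rw [← k1, ← k2, hrz]
      have hlt : |z.1 - w.1| < |a| := by
        have k1 := Int.emod_add_mul_ediv z.1 |a|
        have k2 := Int.emod_add_mul_ediv w.1 |a|
        have k3 := Int.emod_nonneg z.1 ha0.ne'
        have k4 := Int.emod_nonneg w.1 ha0.ne'
        have k5 := Int.emod_lt_of_pos z.1 ha0
        have k6 := Int.emod_lt_of_pos w.1 ha0
        rw [hrr] at k1
        rw [abs_lt]
        constructor <;> linarith
      by_contra hne'
      have hB : (0 : ℤ) < B := lt_of_le_of_lt h3 h4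
      rcases hmin z hz' w hw' hne' with h5 | h5
      · have h6 : |a| ≤ |z.1 - w.1| := le_of_mul_le_mul_right h5 hB
        linarith
      · have h6 : |a| * |z.2 - w.2| = |b| * |z.1 - w.1| := by
          rw [← abs_mul, ← abs_mul, hdz]
        have h7 : |a| * (|a| * B) ≤ (|a| * B) * |z.1 - w.1| := by
          calc |a| * (|a| * B) ≤ |a| * (|z.2 - w.2| * A) :=
                mul_le_mul_of_nonneg_left h5 (abs_nonneg _)
            _ = (|a| * |z.2 - w.2|) * A := by ring
            _ = (|b| * A) * |z.1 - w.1| := by rw [h6]; ring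
            _ ≤ (|a| * B) * |z.1 - w.1| := mul_le_mul_of_nonneg_right hab (abs_nonneg _)
        have h8 : (0 : ℤ) < |a| * B := mul_pos ha0 hB
        have h9 : |a| ≤ |z.1 - w.1| := by
          by_contra hcon
          push Not at hcon
          have : (|a| * B) * |z.1 - w.1| < (|a| * B) * |a| := mul_lt_mul_of_pos_left hcon h8
          linarith
        linarith
  rw [card_product, card_range, card_range] at hcard
  have h1 : (S.card : ℝ) ≤ ((X : ℝ) + 1) * ((Y : ℝ) + 1) := by exact_mod_cast hcard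
  have hna : ((a.natAbs : ℕ) : ℝ) = |(a : ℝ)| := Nat.cast_natAbs a |>.trans (by rw [Int.cast_abs])
  have h2 : (X : ℝ) ≤ 2 * |(a : ℝ)| * B / p := by
    have : (X : ℝ) ≤ ((2 * a.natAbs * B : ℕ) : ℝ) / (p : ℝ) := Nat.cast_div_le
    rw [← hna]
    push_cast at this ⊢
    exact this
  have h3 : (Y : ℝ) ≤ A / |(a : ℝ)| := by
    have : (Y : ℝ) ≤ ((A : ℕ) : ℝ) / ((a.natAbs : ℕ) : ℝ) := Nat.cast_div_le
    rw [← hna]
    exact this
  refine h1.trans ?_
  apply mul_le_mul
  · linarith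
  · linarith
  · positivity
  · positivity

end Pool.Agent.Lib.MP_fdf47d_co
end

section

/-!
# Rich lines have short difference vectors
-/

set_option autoImplicit false

open Finset

namespace Pool.Agent.Lib.MP_fdf47d_co

/-- one case of `key_vec` -/
theorem key_case (S : Finset (ℤ × ℤ)) (A B p : ℕ) (hp : 0 < p)
    (hS : ∀ z ∈ S, (0 ≤ z.1 ∧ z.1 < A) ∧ 0 ≤ z.2 ∧ z.2 < B)
    (hdet : ∀ x ∈ S, ∀ y ∈ S, ∀ z ∈ S, ∀ w ∈ S,
      (p : ℤ) ∣ (x.1 - y.1) * (z.2 - w.2) - (x.2 - y.2) * (z.1 - w.1))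
    (hrich : 8 * ((A : ℝ) * B) < p * S.card)
    (x y : ℤ × ℤ) (hx : x ∈ S) (hy : y ∈ S) (hxy : x ≠ y)
    (hmin : ∀ z ∈ S, ∀ w ∈ S, z ≠ w →
      max (|x.1 - y.1| * B) (|x.2 - y.2| * A) ≤ max (|z.1 - w.1| * B) (|z.2 - w.2| * A))
    (hcase : |x.2 - y.2| * A ≤ |x.1 - y.1| * B) :
    |((x.1 - y.1 : ℤ) : ℝ)| * S.card < 4 * A ∧ |((x.2 - y.2 : ℤ) : ℝ)| * S.card < 4 * B := by
  obtain ⟨⟨hx1, hx2⟩, hx3, hx4⟩ := hS x hx
  obtain ⟨⟨hy1, hy2⟩, hy3, hy4⟩ := hS y hy
  have hAZ : (0 : ℤ) < A := lt_of_le_of_lt hx1 hx2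
  have hBZ : (0 : ℤ) < B := lt_of_le_of_lt hx3 hx4
  have hAR : (0 : ℝ) < A := by exact_mod_cast hAZ
  have hBR : (0 : ℝ) < B := by exact_mod_cast hBZ
  have hpR : (0 : ℝ) < p := by exact_mod_cast hp
  set a : ℤ := x.1 - y.1 with ha
  set b : ℤ := x.2 - y.2 with hb
  have ha0 : a ≠ 0 := by
    intro h0
    rw [h0, abs_zero, zero_mul] at hcase
    have h1 : |b| * A = 0 := le_antisymm hcase (by positivity)
    have h2 : |b| = 0 := by
      rcases mul_eq_zero.1 h1 with h | h
      · exact h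
      · omega
    have h3 : b = 0 := abs_eq_zero.1 h2
    apply hxy
    apply Prod.ext <;> omega
  have haA : |a| ≤ A := by rw [abs_le]; constructor <;> omega
  have hcount := core_count S A B p hp hS a b ha0
    (fun z hz w hw => hdet x hx y hy z hz w hw)
    (by
      intro z hz w hw hzw
      have h1 := hmin z hz w hw hzw
      rw [max_eq_left hcase] at h1
      exact le_max_iff.1 h1)
    hcase
  have haR : (0 : ℝ) < |(a : ℝ)| := abs_pos.2 (by exact_mod_cast ha0)
  have haAR : |(a : ℝ)| ≤ A := by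
    have : ((|a| : ℤ) : ℝ) ≤ ((A : ℤ) : ℝ) := by exact_mod_cast haA
    rw [Int.cast_abs] at this
    exact_mod_cast this
  set k : ℝ := (S.card : ℝ) with hk
  have h1 : (A : ℝ) / |(a : ℝ)| + 1 ≤ 2 * A / |(a : ℝ)| := by
    have : 1 ≤ (A : ℝ) / |(a : ℝ)| := by rw [le_div_iff₀ haR, one_mul]; exact haAR
    have e : 2 * (A : ℝ) / |(a : ℝ)| = A / |(a : ℝ)| + A / |(a : ℝ)| := by ring
    linarith
  have h2 : k ≤ (2 * |(a : ℝ)| * B / p + 1) * (2 * A / |(a : ℝ)|) :=
    hcount.trans (mul_le_mul_of_nonneg_left h1 (by positivity))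
  have h3 : (2 * |(a : ℝ)| * B / p + 1) * (2 * A / |(a : ℝ)|) =
      4 * (A * B) / p + 2 * A / |(a : ℝ)| := by
    field_simp
    ring
  have h4 : 4 * ((A : ℝ) * B) / p < k / 2 := by
    rw [div_lt_div_iff₀ hpR (by norm_num : (0:ℝ) < 2)]
    linarith
  have h5 : k / 2 < 2 * A / |(a : ℝ)| := by
    rw [h3] at h2
    linarith
  have h6 : |(a : ℝ)| * k < 4 * A := by
    rw [lt_div_iff₀ haR] at h5
    linarith
  refine ⟨h6, ?_⟩
  have h7 : |(b : ℝ)| * A ≤ |(a : ℝ)| * B := by
    have : ((|b| * A : ℤ) : ℝ) ≤ ((|a| * B : ℤ) : ℝ) := by exact_mod_cast hcase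
    push_cast at this
    exact this
  have hk0 : 0 ≤ k := Nat.cast_nonneg _
  have h8 : (|(b : ℝ)| * k) * A < (4 * B) * A := by
    calc (|(b : ℝ)| * k) * A = (|(b : ℝ)| * A) * k := by ring
      _ ≤ (|(a : ℝ)| * B) * k := mul_le_mul_of_nonneg_right h7 hk0
      _ = (|(a : ℝ)| * k) * B := by ring
      _ < (4 * A) * B := mul_lt_mul_of_pos_right h6 hBR
      _ = (4 * B) * A := by ring
  exact lt_of_mul_lt_mul_right h8 hAR.le

/-- **Key lemma.** A set of at least two points of the box with all differences parallel modulo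
`p` and more than `8 A B / p` elements contains two points with a short difference. -/
theorem key_vec (S : Finset (ℤ × ℤ)) (A B p : ℕ) (hp : 0 < p)
    (hS : ∀ z ∈ S, (0 ≤ z.1 ∧ z.1 < A) ∧ 0 ≤ z.2 ∧ z.2 < B)
    (hdet : ∀ x ∈ S, ∀ y ∈ S, ∀ z ∈ S, ∀ w ∈ S,
      (p : ℤ) ∣ (x.1 - y.1) * (z.2 - w.2) - (x.2 - y.2) * (z.1 - w.1))
    (h2 : 2 ≤ S.card) (hrich : 8 * ((A : ℝ) * B) < p * S.card) :
    ∃ x ∈ S, ∃ y ∈ S, x ≠ y ∧ |((x.1 - y.1 : ℤ) : ℝ)| * S.card < 4 * A ∧
      |((x.2 - y.2 : ℤ) : ℝ)| * S.card < 4 * B := by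
  classical
  have hne : S.offDiag.Nonempty := by
    obtain ⟨x, hx, y, hy, hxy⟩ := Finset.one_lt_card.1 h2
    exact ⟨(x, y), Finset.mem_offDiag.2 ⟨hx, hy, hxy⟩⟩
  obtain ⟨⟨x, y⟩, hxy, hmin⟩ := S.offDiag.exists_min_image
    (fun q => max (|q.1.1 - q.2.1| * (B : ℤ)) (|q.1.2 - q.2.2| * (A : ℤ))) hne
  rw [Finset.mem_offDiag] at hxy
  obtain ⟨hx, hy, hne'⟩ := hxy
  refine ⟨x, hx, y, hy, hne', ?_⟩
  have hmin' : ∀ z ∈ S, ∀ w ∈ S, z ≠ w →
      max (|x.1 - y.1| * (B : ℤ)) (|x.2 - y.2| * (A : ℤ)) ≤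
        max (|z.1 - w.1| * (B : ℤ)) (|z.2 - w.2| * (A : ℤ)) := by
    intro z hz w hw hzw
    exact hmin (z, w) (Finset.mem_offDiag.2 ⟨hz, hw, hzw⟩)
  rcases le_total (|x.2 - y.2| * (A : ℤ)) (|x.1 - y.1| * (B : ℤ)) with hcase | hcase
  · exact key_case S A B p hp hS hdet hrich x y hx hy hne' hmin' hcase
  · -- swap the coordinates
    set S' : Finset (ℤ × ℤ) := S.image Prod.swap with hS'
    have hcard : S'.card = S.card := Finset.card_image_of_injective _ Prod.swap_injective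
    have hmem : ∀ z : ℤ × ℤ, z ∈ S' → z.swap ∈ S := by
      intro z hz
      rw [hS', Finset.mem_image] at hz
      obtain ⟨w, hw, rfl⟩ := hz
      simpa using hw
    have h := key_case S' B A p hp
      (by
        intro z hz
        obtain ⟨h1, h2⟩ := hS _ (hmem z hz)
        exact ⟨h2, h1⟩)
      (by
        intro x' hx' y' hy' z' hz' w' hw'
        have h1 := hdet _ (hmem x' hx') _ (hmem y' hy') _ (hmem z' hz') _ (hmem w' hw')
        simp only [Prod.fst_swap, Prod.snd_swap] at h1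
        have h2 : (x'.1 - y'.1) * (z'.2 - w'.2) - (x'.2 - y'.2) * (z'.1 - w'.1)
          = -((x'.2 - y'.2) * (z'.1 - w'.1) - (x'.1 - y'.1) * (z'.2 - w'.2)) := by ring
        rw [h2]
        exact (dvd_neg).2 h1)
      (by rw [hcard, mul_comm (B : ℝ) A]; exact hrich)
      x.swap y.swap (Finset.mem_image_of_mem _ hx) (Finset.mem_image_of_mem _ hy)
      (fun h => hne' (Prod.swap_injective h))
      (by
        intro z hz w hw hzw
        have h1 := hmin' _ (hmem z hz) _ (hmem w hw) (fun h => hzw (Prod.swap_injective h))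
        simp only [Prod.fst_swap, Prod.snd_swap] at h1 ⊢
        rw [max_comm, max_comm (|z.1 - w.1| * (A : ℤ))]
        exact h1)
      (by simpa using hcase)
    rw [hcard] at h
    simp only [Prod.fst_swap, Prod.snd_swap] at h
    exact ⟨h.2, h.1⟩

end Pool.Agent.Lib.MP_fdf47d_co
end
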