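import Pool.Agent.Lib.MP_fdf47d_co.Key

/-!
# Lines in the affine plane over `ZMod p`, integer points of a box on a line
-/

set_option autoImplicit false

open Finset

namespace Pool.Agent.Lib.MP_fdf47d_co

variable {p : ℕ}

/-- the set `a x + b y + c = 0` -/
def ln (a b c : ZMod p) : Set (ZMod p × ZMod p) := {x | a * x.1 + b * x.2 + c = 0}

/-- lines of the affine plane over `ZMod p` -/
def IsLine (l : Set (ZMod p × ZMod p)) : Prop :=
  ∃ a b c : ZMod p, (a ≠ 0 ∨ b ≠ 0) ∧ l = ln a b c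

/-- reduction modulo `p` of an integer point -/
def cst (p : ℕ) (z : ℤ × ℤ) : ZMod p × ZMod p := ((z.1 : ZMod p), (z.2 : ZMod p))

/-- the box `[0, A) × [0, B)` -/
noncomputable def box (A B : ℕ) : Finset (ℤ × ℤ) := Ico (0 : ℤ) A ×ˢ Ico (0 : ℤ) B

open Classical in
/-- the points of the box on the line `l` -/
noncomputable def pts (A B : ℕ) (l : Set (ZMod p × ZMod p)) : Finset (ℤ × ℤ) :=
  (box A B).filter (fun z => cst p z ∈ l)

theorem mem_box {A B : ℕ} {z : ℤ × ℤ} :
    z ∈ box A B ↔ (0 ≤ z.1 ∧ z.1 < A) ∧ 0 ≤ z.2 ∧ z.2 < B := by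
  unfold box
  rw [mem_product, mem_Ico, mem_Ico]

theorem mem_pts {A B : ℕ} {l : Set (ZMod p × ZMod p)} {z : ℤ × ℤ} :
    z ∈ pts A B l ↔ z ∈ box A B ∧ cst p z ∈ l := by
  classical
  unfold pts
  rw [mem_filter]

theorem card_box (A B : ℕ) : (box A B).card = A * B := by
  unfold box
  rw [card_product, Int.card_Ico, Int.card_Ico]
  simp

theorem pts_subset (A B : ℕ) (l : Set (ZMod p × ZMod p)) : pts A B l ⊆ box A B := by
  intro z hz
  exact (mem_pts.1 hz).1

theorem card_pts_le (A B : ℕ) (l : Set (ZMod p × ZMod p)) : (pts A B l).card ≤ A * B := by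
  rw [← card_box]
  exact card_le_card (pts_subset A B l)

variable [Fact p.Prime]

/-- differences of points of a line are parallel -/
theorem IsLine.det {l : Set (ZMod p × ZMod p)} (hl : IsLine l) {x y z w : ZMod p × ZMod p}
    (hx : x ∈ l) (hy : y ∈ l) (hz : z ∈ l) (hw : w ∈ l) :
    (x.1 - y.1) * (z.2 - w.2) - (x.2 - y.2) * (z.1 - w.1) = 0 := by
  obtain ⟨a, b, c, hab, rfl⟩ := hl
  simp only [ln, Set.mem_ofPred_eq] at hx hy hz hw
  have h1 : a * (x.1 - y.1) + b * (x.2 - y.2) = 0 := by linear_combination hx - hy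
  have h2 : a * (z.1 - w.1) + b * (z.2 - w.2) = 0 := by linear_combination hz - hw
  rcases hab with ha | hb
  · apply mul_left_cancel₀ ha
    rw [mul_zero]
    linear_combination (z.2 - w.2) * h1 - (x.2 - y.2) * h2
  · apply mul_left_cancel₀ hb
    rw [mul_zero]
    linear_combination (x.1 - y.1) * h2 - (z.1 - w.1) * h1

/-- a line is closed under the shift by the difference of two of its points -/
theorem IsLine.shift {l : Set (ZMod p × ZMod p)} (hl : IsLine l) {x y z : ZMod p × ZMod p}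
    (hx : x ∈ l) (hy : y ∈ l) (hz : z ∈ l) : z + (x - y) ∈ l := by
  obtain ⟨a, b, c, _, rfl⟩ := hl
  simp only [ln, Set.mem_ofPred_eq] at hx hy hz ⊢
  simp only [Prod.fst_add, Prod.snd_add, Prod.fst_sub, Prod.snd_sub]
  linear_combination hx - hy + hz

/-- the shift by a multiple of a direction -/
theorem IsLine.shift_smul {l : Set (ZMod p × ZMod p)} (hl : IsLine l) {x y z : ZMod p × ZMod p}
    (hx : x ∈ l) (hy : y ∈ l) (hz : z ∈ l) (t : ZMod p) : z + t • (x - y) ∈ l := by
  obtain ⟨a, b, c, _, rfl⟩ := hl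
  simp only [ln, Set.mem_ofPred_eq] at hx hy hz ⊢
  simp only [Prod.fst_add, Prod.snd_add, Prod.fst_sub, Prod.snd_sub, Prod.smul_fst, Prod.smul_snd,
    smul_eq_mul]
  linear_combination t * hx - t * hy + hz

/-- two lines through the same two points are equal -/
theorem IsLine.eq_of_two {l l' : Set (ZMod p × ZMod p)} (hl : IsLine l) (hl' : IsLine l')
    {x y : ZMod p × ZMod p} (hxy : x ≠ y) (hx : x ∈ l) (hy : y ∈ l) (hx' : x ∈ l') (hy' : y ∈ l') :
    l = l' := by
  have key : ∀ {l l' : Set (ZMod p × ZMod p)}, IsLine l → IsLine l' → x ∈ l → y ∈ l → x ∈ l' →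
      y ∈ l' → l ⊆ l' := by
    intro l l' hl hl' hx hy hx' hy' z hz
    have hd := hl.det hx hy hz hx
    obtain ⟨a, b, c, hab, rfl⟩ := hl'
    simp only [ln, Set.mem_ofPred_eq] at hx' hy' ⊢
    have h1 : a * (x.1 - y.1) + b * (x.2 - y.2) = 0 := by linear_combination hx' - hy'
    have hne : x.1 - y.1 ≠ 0 ∨ x.2 - y.2 ≠ 0 := by
      by_contra hcon
      push Not at hcon
      exact hxy (Prod.ext (sub_eq_zero.1 hcon.1) (sub_eq_zero.1 hcon.2))
    rcases hne with h | h
    · apply mul_left_cancel₀ h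
      rw [mul_zero]
      linear_combination (x.1 - y.1) * hx' + b * hd + (z.1 - x.1) * h1
    · apply mul_left_cancel₀ h
      rw [mul_zero]
      linear_combination (x.2 - y.2) * hx' - a * hd + (z.2 - x.2) * h1
  exact Set.Subset.antisymm (key hl hl' hx hy hx' hy') (key hl' hl hx' hy' hx hy)

/-- parallel lines cover every point of the box at most once -/
theorem sum_parallel (A B : ℕ) (M : Finset (Set (ZMod p × ZMod p))) (hM : ∀ l ∈ M, IsLine l)
    (v : ZMod p × ZMod p) (hv : v ≠ 0) (hsh : ∀ l ∈ M, ∀ z ∈ l, z + v ∈ l) :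
    ∑ l ∈ M, (pts A B l).card ≤ A * B := by
  classical
  rw [← Finset.card_biUnion]
  · rw [← card_box]
    apply card_le_card
    intro z hz
    rw [mem_biUnion] at hz
    obtain ⟨l, _, hz⟩ := hz
    exact pts_subset A B l hz
  · intro l hl l' hl' hne
    change Disjoint (pts A B l) (pts A B l')
    rw [Finset.disjoint_left]
    intro z hz hz'
    have h1 := (mem_pts.1 hz).2
    have h2 := (mem_pts.1 hz').2
    apply hne
    refine (hM l hl).eq_of_two (hM l' hl') (x := cst p z + v) (y := cst p z) ?_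
      (hsh l hl _ h1) h1 (hsh l' hl' _ h2) h2
    intro h
    apply hv
    have h3 : cst p z + v = cst p z + 0 := by rw [add_zero]; exact h
    exact add_left_cancel h3

theorem cst_sub (x y : ℤ × ℤ) : cst p x - cst p y = (((x.1 - y.1 : ℤ) : ZMod p), ((x.2 - y.2 : ℤ) : ZMod p)) := by
  unfold cst
  rw [Prod.mk_sub_mk]
  push_cast
  rfl

theorem cst_sub_ne {A B : ℕ} (hA : A ≤ p) (hB : B ≤ p) {x y : ℤ × ℤ} (hx : x ∈ box A B)
    (hy : y ∈ box A B) (hxy : x ≠ y) : cst p x - cst p y ≠ 0 := by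
  rw [mem_box] at hx hy
  rw [cst_sub]
  intro h
  have h1 : ((x.1 - y.1 : ℤ) : ZMod p) = 0 := congrArg Prod.fst h
  have h2 : ((x.2 - y.2 : ℤ) : ZMod p) = 0 := congrArg Prod.snd h
  rw [ZMod.intCast_zmod_eq_zero_iff_dvd] at h1 h2
  have h3 : x.1 - y.1 = 0 := Int.eq_zero_of_abs_lt_dvd h1 (by rw [abs_lt]; constructor <;> omega)
  have h4 : x.2 - y.2 = 0 := Int.eq_zero_of_abs_lt_dvd h2 (by rw [abs_lt]; constructor <;> omega)
  apply hxy
  apply Prod.ext <;> omega

/-- the key lemma for a line -/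
theorem IsLine.key {l : Set (ZMod p × ZMod p)} (hl : IsLine l) (A B : ℕ)
    (h2 : 2 ≤ (pts A B l).card) (hrich : 8 * ((A : ℝ) * B) < p * (pts A B l).card) :
    ∃ x ∈ pts A B l, ∃ y ∈ pts A B l, x ≠ y ∧
      |((x.1 - y.1 : ℤ) : ℝ)| * (pts A B l).card < 4 * A ∧
      |((x.2 - y.2 : ℤ) : ℝ)| * (pts A B l).card < 4 * B := by
  have hp : p.Prime := Fact.out
  apply key_vec (pts A B l) A B p hp.pos _ _ h2 hrich
  · intro z hz
    exact mem_box.1 (pts_subset A B l hz)
  · intro x hx y hy z hz w hw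
    have h := hl.det (mem_pts.1 hx).2 (mem_pts.1 hy).2 (mem_pts.1 hz).2 (mem_pts.1 hw).2
    rw [← ZMod.intCast_zmod_eq_zero_iff_dvd]
    push_cast
    exact h

end Pool.Agent.Lib.MP_fdf47d_co
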