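import Pool.Agent.Lib.MP_fdf47d_co.Lines

section

/-!
# The upper bound for the incidences of a box with lines
-/

set_option autoImplicit false

open Finset

namespace Pool.Agent.Lib.MP_fdf47d_co

theorem card_nz (M : ℕ) : ((Icc (-(M : ℤ)) M).erase 0).card = 2 * M := by
  rw [card_erase_of_mem (by rw [mem_Icc]; omega), Int.card_Icc]
  omega

variable {p : ℕ} [Fact p.Prime]

/-- a rich line has a short period -/
theorem IsLine.period {l : Set (ZMod p × ZMod p)} (hl : IsLine l) (A B : ℕ) (hA : A ≤ p)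
    (hB : B ≤ p) (h2 : 2 ≤ (pts A B l).card)
    (hrich : 8 * ((A : ℝ) * B) < p * (pts A B l).card) :
    ∃ d : ℤ × ℤ, cst p d ≠ 0 ∧ (∀ z ∈ l, ∀ t : ZMod p, z + t • cst p d ∈ l) ∧
      |(d.1 : ℝ)| * (pts A B l).card < 4 * A ∧ |(d.2 : ℝ)| * (pts A B l).card < 4 * B := by
  obtain ⟨x, hx, y, hy, hxy, h1, h3⟩ := hl.key A B h2 hrich
  have he : cst p ((x.1 - y.1, x.2 - y.2) : ℤ × ℤ) = cst p x - cst p y := by
    rw [cst_sub]
    rfl
  refine ⟨(x.1 - y.1, x.2 - y.2), ?_, ?_, h1, h3⟩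
  · rw [he]
    exact cst_sub_ne hA hB (pts_subset A B l hx) (pts_subset A B l hy) hxy
  · intro z hz t
    rw [he]
    exact hl.shift_smul (mem_pts.1 hx).2 (mem_pts.1 hy).2 hz t

theorem natAbs_le_floor {d : ℤ} {K X : ℝ} (hK : 0 < K) {k : ℝ} (hk : K < k)
    (h : |(d : ℝ)| * k < X) : d.natAbs ≤ ⌊X / K⌋₊ := by
  apply Nat.le_floor
  rw [le_div_iff₀ hK]
  have h1 : ((d.natAbs : ℕ) : ℝ) = |(d : ℝ)| := by
    rw [Nat.cast_natAbs, Int.cast_abs]
  rw [h1]
  have h2 : |(d : ℝ)| * K ≤ |(d : ℝ)| * k := mul_le_mul_of_nonneg_left hk.le (abs_nonneg _)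
  linarith

/-- the contribution of the rich lines -/
theorem rich_part (A B : ℕ) (hA : A ≤ p) (hB : B ≤ p) (K : ℝ) (hK : 0 < K)
    (M : Finset (Set (ZMod p × ZMod p))) (hM : ∀ l ∈ M, IsLine l)
    (h2 : ∀ l ∈ M, 2 ≤ (pts A B l).card)
    (hr : ∀ l ∈ M, 8 * ((A : ℝ) * B) < p * (pts A B l).card)
    (hKM : ∀ l ∈ M, K < (pts A B l).card) :
    ((∑ l ∈ M, (pts A B l).card : ℕ) : ℝ) ≤
      2 * ((A : ℝ) * B) + 64 * ((A : ℝ) * B) ^ 2 / K ^ 2 := by
  classical
  have hex : ∀ l ∈ M, ∃ d : ℤ × ℤ, cst p d ≠ 0 ∧ (∀ z ∈ l, ∀ t : ZMod p, z + t • cst p d ∈ l) ∧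
      |(d.1 : ℝ)| * (pts A B l).card < 4 * A ∧ |(d.2 : ℝ)| * (pts A B l).card < 4 * B := by
    intro l hl
    exact (hM l hl).period A B hA hB (h2 l hl) (hr l hl)
  choose! d hd0 hdt hd1 hd2 using hex
  -- horizontal lines
  have hor : ∑ l ∈ M.filter (fun l => (d l).2 = 0), (pts A B l).card ≤ A * B := by
    apply sum_parallel A B _ (fun l hl => hM l (mem_filter.1 hl).1) (1, 0)
    · intro h
      exact one_ne_zero (congrArg Prod.fst h)
    · intro l hl z hz
      obtain ⟨hlM, hl2⟩ := mem_filter.1 hl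
      have hne : ((d l).1 : ZMod p) ≠ 0 := by
        intro h
        apply hd0 l hlM
        unfold cst
        rw [h, hl2]
        simp
      have := hdt l hlM z hz (((d l).1 : ZMod p)⁻¹)
      have he : ((((d l).1 : ZMod p)⁻¹) • cst p (d l)) = ((1, 0) : ZMod p × ZMod p) := by
        unfold cst
        rw [hl2]
        apply Prod.ext
        · simp [hne]
        · simp
      rwa [he] at this
  have ver : ∑ l ∈ (M.filter (fun l => ¬ (d l).2 = 0)).filter (fun l => (d l).1 = 0),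
      (pts A B l).card ≤ A * B := by
    apply sum_parallel A B _ (fun l hl => hM l (mem_filter.1 (mem_filter.1 hl).1).1) (0, 1)
    · intro h
      exact one_ne_zero (congrArg Prod.snd h)
    · intro l hl z hz
      obtain ⟨hl', hl1⟩ := mem_filter.1 hl
      have hlM := (mem_filter.1 hl').1
      have hne : ((d l).2 : ZMod p) ≠ 0 := by
        intro h
        apply hd0 l hlM
        unfold cst
        rw [h, hl1]
        simp
      have := hdt l hlM z hz (((d l).2 : ZMod p)⁻¹)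
      have he : ((((d l).2 : ZMod p)⁻¹) • cst p (d l)) = ((0, 1) : ZMod p × ZMod p) := by
        unfold cst
        rw [hl1]
        apply Prod.ext
        · simp
        · simp [hne]
      rwa [he] at this
  set M3 := (M.filter (fun l => ¬ (d l).2 = 0)).filter (fun l => ¬ (d l).1 = 0) with hM3
  set V : Finset (ℤ × ℤ) := ((Icc (-(⌊4 * (A : ℝ) / K⌋₊ : ℤ)) ⌊4 * (A : ℝ) / K⌋₊).erase 0) ×ˢ
    ((Icc (-(⌊4 * (B : ℝ) / K⌋₊ : ℤ)) ⌊4 * (B : ℝ) / K⌋₊).erase 0) with hV
  have hmem : ∀ l ∈ M3, l ∈ M ∧ (d l).2 ≠ 0 ∧ (d l).1 ≠ 0 := by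
    intro l hl
    obtain ⟨h1, h3⟩ := mem_filter.1 hl
    obtain ⟨h4, h5⟩ := mem_filter.1 h1
    exact ⟨h4, h5, h3⟩
  have hmaps : ∀ l ∈ M3, d l ∈ V := by
    intro l hl
    obtain ⟨hlM, h3, h4⟩ := hmem l hl
    have h5 := natAbs_le_floor hK (hKM l hlM) (hd1 l hlM)
    have h6 := natAbs_le_floor hK (hKM l hlM) (hd2 l hlM)
    rw [hV, mem_product, mem_erase, mem_erase, mem_Icc, mem_Icc]
    refine ⟨⟨h4, ?_, ?_⟩, h3, ?_, ?_⟩ <;> omega
  have hgen : ∑ l ∈ M3, (pts A B l).card ≤ V.card * (A * B) := by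
    rw [← sum_fiberwise_of_maps_to hmaps]
    rw [← smul_eq_mul, ← sum_const]
    apply sum_le_sum
    intro v _
    by_cases hne : (M3.filter (fun l => d l = v)).Nonempty
    · obtain ⟨l0, hl0⟩ := hne
      obtain ⟨hl0', hl0v⟩ := mem_filter.1 hl0
      apply sum_parallel A B _ (fun l hl => hM l (hmem l (mem_filter.1 hl).1).1) (cst p v)
      · rw [← hl0v]
        exact hd0 l0 (hmem l0 hl0').1
      · intro l hl z hz
        obtain ⟨hl', hlv⟩ := mem_filter.1 hl
        have := hdt l (hmem l hl').1 z hz 1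
        rwa [one_smul, hlv] at this
    · rw [not_nonempty_iff_eq_empty] at hne
      rw [hne, sum_empty]
      exact Nat.zero_le _
  have hVc : (V.card : ℝ) ≤ 64 * ((A : ℝ) * B) / K ^ 2 := by
    rw [hV, card_product, card_nz, card_nz]
    push_cast
    have h1 : ((⌊4 * (A : ℝ) / K⌋₊ : ℕ) : ℝ) ≤ 4 * (A : ℝ) / K := Nat.floor_le (by positivity)
    have h3 : ((⌊4 * (B : ℝ) / K⌋₊ : ℕ) : ℝ) ≤ 4 * (B : ℝ) / K := Nat.floor_le (by positivity)
    calc 2 * ((⌊4 * (A : ℝ) / K⌋₊ : ℕ) : ℝ) * (2 * ((⌊4 * (B : ℝ) / K⌋₊ : ℕ) : ℝ))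
        ≤ 2 * (4 * (A : ℝ) / K) * (2 * (4 * (B : ℝ) / K)) := by
          apply mul_le_mul <;> first | positivity | linarith
      _ = 64 * ((A : ℝ) * B) / K ^ 2 := by
          field_simp
          ring
  have hsplit : ∑ l ∈ M, (pts A B l).card =
      ∑ l ∈ M.filter (fun l => (d l).2 = 0), (pts A B l).card +
      (∑ l ∈ (M.filter (fun l => ¬ (d l).2 = 0)).filter (fun l => (d l).1 = 0),
        (pts A B l).card + ∑ l ∈ M3, (pts A B l).card) := by
    rw [hM3, sum_filter_add_sum_filter_not, sum_filter_add_sum_filter_not]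
  have htot : ∑ l ∈ M, (pts A B l).card ≤ 2 * (A * B) + V.card * (A * B) := by
    rw [hsplit]
    linarith
  have htotR : ((∑ l ∈ M, (pts A B l).card : ℕ) : ℝ) ≤
      2 * ((A : ℝ) * B) + V.card * ((A : ℝ) * B) := by
    exact_mod_cast htot
  have hfin : (V.card : ℝ) * ((A : ℝ) * B) ≤ 64 * ((A : ℝ) * B) ^ 2 / K ^ 2 := by
    calc (V.card : ℝ) * ((A : ℝ) * B) ≤ 64 * ((A : ℝ) * B) / K ^ 2 * ((A : ℝ) * B) := by
          apply mul_le_mul_of_nonneg_right hVc
          positivity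
      _ = 64 * ((A : ℝ) * B) ^ 2 / K ^ 2 := by ring
  linarith

/-- **upper bound for a box** -/
theorem box_upper (A B : ℕ) (hA : A ≤ p) (hB : B ≤ p) (L : Finset (Set (ZMod p × ZMod p)))
    (hL : ∀ l ∈ L, IsLine l) (T : ℝ) (hT : 0 ≤ T) (hT3 : T ^ 3 = (((A : ℝ) * B) * L.card) ^ 2) :
    ((∑ l ∈ L, (pts A B l).card : ℕ) : ℝ) ≤
      8 * T + 2 * ((A : ℝ) * B) + L.card + 8 * ((A : ℝ) * B) * L.card / p := by
  classical
  have hpR : (0 : ℝ) < p := by exact_mod_cast (Fact.out : p.Prime).pos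
  by_cases hzero : ((A : ℝ) * B) * L.card = 0
  · rcases mul_eq_zero.1 hzero with h | h
    · have h1 : A * B = 0 := by exact_mod_cast h
      have h3 : ∑ l ∈ L, (pts A B l).card = 0 := by
        apply sum_eq_zero
        intro l _
        have := card_pts_le A B l
        omega
      rw [h3, Nat.cast_zero]
      positivity
    · have h1 : L.card = 0 := by exact_mod_cast h
      rw [card_eq_zero] at h1
      subst h1
      rw [sum_empty, Nat.cast_zero]
      positivity
  have hmpos : 0 < (A : ℝ) * B := by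
    rcases lt_or_eq_of_le (show 0 ≤ (A : ℝ) * B by positivity) with h | h
    · exact h
    · exact absurd (by rw [← h, zero_mul]) hzero
  have hnpos : (0 : ℝ) < L.card := by
    rcases lt_or_eq_of_le (show (0 : ℝ) ≤ (L.card : ℝ) by positivity) with h | h
    · exact h
    · exact absurd (by rw [← h, mul_zero]) hzero
  have hTpos : 0 < T := by
    rcases lt_or_eq_of_le hT with h | h
    · exact h
    · exfalso
      rw [← h] at hT3
      have : 0 < (((A : ℝ) * B) * L.card) ^ 2 := by positivity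
      rw [← hT3] at this
      norm_num at this
  set K : ℝ := 4 * T / L.card with hKdef
  have hK : 0 < K := by positivity
  set P0 : Set (ZMod p × ZMod p) → Prop := fun l => 2 ≤ (pts A B l).card with hP0
  set P1 : Set (ZMod p × ZMod p) → Prop :=
    fun l => 8 * ((A : ℝ) * B) < p * (pts A B l).card with hP1
  set P2 : Set (ZMod p × ZMod p) → Prop := fun l => K < (pts A B l).card with hP2
  -- lines with at most one point
  have s0 : ((∑ l ∈ L.filter (fun l => ¬ P0 l), (pts A B l).card : ℕ) : ℝ) ≤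
      (L.filter (fun l => ¬ P0 l)).card := by
    have : ∑ l ∈ L.filter (fun l => ¬ P0 l), (pts A B l).card ≤
        ∑ l ∈ L.filter (fun l => ¬ P0 l), 1 := by
      apply sum_le_sum
      intro l hl
      have := (mem_filter.1 hl).2
      rw [hP0] at this
      simp only at this
      omega
    rw [sum_const, smul_eq_mul, mul_one] at this
    exact_mod_cast this
  have s1 : ((∑ l ∈ (L.filter P0).filter (fun l => ¬ P1 l), (pts A B l).card : ℕ) : ℝ) ≤
      8 * ((A : ℝ) * B) * L.card / p := by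
    push_cast
    calc ∑ l ∈ (L.filter P0).filter (fun l => ¬ P1 l), ((pts A B l).card : ℝ)
        ≤ ∑ l ∈ (L.filter P0).filter (fun l => ¬ P1 l), 8 * ((A : ℝ) * B) / p := by
          apply sum_le_sum
          intro l hl
          have := (mem_filter.1 hl).2
          rw [hP1] at this
          simp only [not_lt] at this
          rw [le_div_iff₀ hpR]
          linarith
      _ = ((L.filter P0).filter (fun l => ¬ P1 l)).card * (8 * ((A : ℝ) * B) / p) := by
          rw [sum_const, nsmul_eq_mul]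
      _ ≤ L.card * (8 * ((A : ℝ) * B) / p) := by
          apply mul_le_mul_of_nonneg_right _ (by positivity)
          have : ((L.filter P0).filter (fun l => ¬ P1 l)).card ≤ L.card :=
            (card_le_card (filter_subset _ _)).trans (card_le_card (filter_subset _ _))
          exact_mod_cast this
      _ = 8 * ((A : ℝ) * B) * L.card / p := by ring
  have s2 : ((∑ l ∈ ((L.filter P0).filter P1).filter (fun l => ¬ P2 l),
      (pts A B l).card : ℕ) : ℝ) ≤ 4 * T := by
    push_cast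
    calc ∑ l ∈ ((L.filter P0).filter P1).filter (fun l => ¬ P2 l), ((pts A B l).card : ℝ)
        ≤ ∑ l ∈ ((L.filter P0).filter P1).filter (fun l => ¬ P2 l), K := by
          apply sum_le_sum
          intro l hl
          have := (mem_filter.1 hl).2
          rw [hP2] at this
          simp only [not_lt] at this
          exact this
      _ = (((L.filter P0).filter P1).filter (fun l => ¬ P2 l)).card * K := by
          rw [sum_const, nsmul_eq_mul]
      _ ≤ L.card * K := by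
          apply mul_le_mul_of_nonneg_right _ hK.le
          have : (((L.filter P0).filter P1).filter (fun l => ¬ P2 l)).card ≤ L.card :=
            ((card_le_card (filter_subset _ _)).trans (card_le_card (filter_subset _ _))).trans
              (card_le_card (filter_subset _ _))
          exact_mod_cast this
      _ = 4 * T := by
          rw [hKdef]
          field_simp
  have s3 : ((∑ l ∈ ((L.filter P0).filter P1).filter P2, (pts A B l).card : ℕ) : ℝ) ≤
      2 * ((A : ℝ) * B) + 4 * T := by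
    have h := rich_part A B hA hB K hK (((L.filter P0).filter P1).filter P2)
      (fun l hl => hL l (mem_filter.1 (mem_filter.1 (mem_filter.1 hl).1).1).1)
      (fun l hl => (mem_filter.1 (mem_filter.1 (mem_filter.1 hl).1).1).2)
      (fun l hl => (mem_filter.1 (mem_filter.1 hl).1).2)
      (fun l hl => (mem_filter.1 hl).2)
    have he : 64 * ((A : ℝ) * B) ^ 2 / K ^ 2 = 4 * T := by
      rw [hKdef]
      have h1 : (64 : ℝ) * ((A : ℝ) * B) ^ 2 / (4 * T / L.card) ^ 2 =
          4 * ((((A : ℝ) * B) * L.card) ^ 2 / T ^ 2) := by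
        field_simp
        ring
      rw [h1, ← hT3]
      field_simp
    rw [he] at h
    exact h
  have hc0 : ((L.filter (fun l => ¬ P0 l)).card : ℝ) ≤ L.card := by
    exact_mod_cast card_le_card (filter_subset _ _)
  have hsplit : ∑ l ∈ L, (pts A B l).card =
      ((∑ l ∈ ((L.filter P0).filter P1).filter P2, (pts A B l).card +
        ∑ l ∈ ((L.filter P0).filter P1).filter (fun l => ¬ P2 l), (pts A B l).card) +
        ∑ l ∈ (L.filter P0).filter (fun l => ¬ P1 l), (pts A B l).card) +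
      ∑ l ∈ L.filter (fun l => ¬ P0 l), (pts A B l).card := by
    rw [sum_filter_add_sum_filter_not, sum_filter_add_sum_filter_not,
      sum_filter_add_sum_filter_not]
  rw [hsplit]
  push_cast at s0 s1 s2 s3 ⊢
  linarith

end Pool.Agent.Lib.MP_fdf47d_co
end

section

/-!
# All lines, and simple counts
-/

set_option autoImplicit false

open Finset

namespace Pool.Agent.Lib.MP_fdf47d_co

variable {p : ℕ}

/-- the line `y = s x + c` -/
def sl (s c : ZMod p) : Set (ZMod p × ZMod p) := {x | x.2 = s * x.1 + c}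

/-- the line `x = c` -/
def vl (c : ZMod p) : Set (ZMod p × ZMod p) := {x | x.1 = c}

theorem mem_sl {s c : ZMod p} {x : ZMod p × ZMod p} : x ∈ sl s c ↔ x.2 = s * x.1 + c := Iff.rfl

theorem mem_vl {c : ZMod p} {x : ZMod p × ZMod p} : x ∈ vl c ↔ x.1 = c := Iff.rfl

theorem mem_ln {a b c : ZMod p} {x : ZMod p × ZMod p} :
    x ∈ ln a b c ↔ a * x.1 + b * x.2 + c = 0 := Iff.rfl

variable [Fact p.Prime]

theorem isLine_sl (s c : ZMod p) : IsLine (sl s c) := by
  refine ⟨s, -1, c, Or.inr (by simp), ?_⟩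
  ext x
  rw [mem_sl, mem_ln]
  constructor
  · intro h
    rw [h]
    ring
  · intro h
    linear_combination -h

theorem isLine_vl (c : ZMod p) : IsLine (vl c) := by
  refine ⟨1, 0, -c, Or.inl one_ne_zero, ?_⟩
  ext x
  rw [mem_vl, mem_ln]
  constructor
  · intro h
    rw [h]
    ring
  · intro h
    linear_combination h

theorem isLine_cases {l : Set (ZMod p × ZMod p)} (hl : IsLine l) :
    (∃ s c, l = sl s c) ∨ ∃ c, l = vl c := by
  obtain ⟨a, b, c, hab, rfl⟩ := hl
  by_cases hb : b = 0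
  · have ha : a ≠ 0 := by
      rcases hab with h | h
      · exact h
      · exact absurd hb h
    right
    refine ⟨-c / a, ?_⟩
    ext x
    rw [mem_ln, mem_vl, hb]
    constructor
    · intro h
      field_simp
      linear_combination h
    · intro h
      rw [h]
      field_simp
      ring
  · left
    refine ⟨-a / b, -c / b, ?_⟩
    ext x
    rw [mem_ln, mem_sl]
    constructor
    · intro h
      field_simp
      linear_combination h
    · intro h
      rw [h]
      field_simp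
      ring

theorem sl_inj {s c s' c' : ZMod p} (h : sl s c = sl s' c') : s = s' ∧ c = c' := by
  have h1 : ((0, c) : ZMod p × ZMod p) ∈ sl s c := by rw [mem_sl]; simp
  have h2 : ((1, s + c) : ZMod p × ZMod p) ∈ sl s c := by rw [mem_sl]; simp
  rw [h, mem_sl] at h1 h2
  simp only [mul_zero, zero_add, mul_one] at h1 h2
  refine ⟨?_, h1⟩
  rw [h1] at h2
  exact add_right_cancel h2

theorem vl_inj {c c' : ZMod p} (h : vl c = vl c') : c = c' := by
  have h1 : ((c, 0) : ZMod p × ZMod p) ∈ vl c := by rw [mem_vl]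
  rw [h, mem_vl] at h1
  exact h1

theorem sl_ne_vl (s c d : ZMod p) : sl s c ≠ vl d := by
  intro h
  have h1 : ((d, 0) : ZMod p × ZMod p) ∈ vl d := by rw [mem_vl]
  have h2 : ((d, 1) : ZMod p × ZMod p) ∈ vl d := by rw [mem_vl]
  rw [← h, mem_sl] at h1 h2
  simp only at h1 h2
  rw [← h1] at h2
  exact one_ne_zero h2

variable (p) in
/-- all lines of the affine plane over `ZMod p` -/
noncomputable def allLines : Finset (Set (ZMod p × ZMod p)) :=
  (Set.toFinite {l : Set (ZMod p × ZMod p) | IsLine l}).toFinset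

theorem mem_allLines {l : Set (ZMod p × ZMod p)} : l ∈ allLines p ↔ IsLine l := by
  unfold allLines
  rw [Set.Finite.mem_toFinset]
  exact Iff.rfl

open Classical in
theorem allLines_eq : allLines p = (univ.image (fun q : ZMod p × ZMod p => sl q.1 q.2)) ∪
    univ.image (fun c : ZMod p => vl c) := by
  ext l
  rw [mem_allLines, mem_union, mem_image, mem_image]
  constructor
  · intro h
    rcases isLine_cases h with ⟨s, c, rfl⟩ | ⟨c, rfl⟩
    · left
      exact ⟨(s, c), mem_univ _, rfl⟩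
    · right
      exact ⟨c, mem_univ _, rfl⟩
  · rintro (⟨q, _, rfl⟩ | ⟨c, _, rfl⟩)
    · exact isLine_sl _ _
    · exact isLine_vl _

open Classical in
theorem disj_lines : Disjoint (univ.image (fun q : ZMod p × ZMod p => sl q.1 q.2))
    (univ.image (fun c : ZMod p => vl c)) := by
  rw [Finset.disjoint_left]
  intro l h1 h2
  obtain ⟨q, _, rfl⟩ := mem_image.1 h1
  obtain ⟨c, _, hc⟩ := mem_image.1 h2
  exact sl_ne_vl _ _ _ hc.symm

theorem card_allLines : (allLines p).card = p ^ 2 + p := by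
  classical
  rw [allLines_eq, card_union_of_disjoint disj_lines, card_image_of_injective, card_image_of_injective]
  · rw [card_univ, card_univ, Fintype.card_prod, ZMod.card]
    ring
  · intro c c' h
    exact vl_inj h
  · intro q q' h
    obtain ⟨h1, h2⟩ := sl_inj h
    exact Prod.ext h1 h2

theorem sum_fib (A B : ℕ) (g : ℤ × ℤ → ZMod p) :
    ∑ c : ZMod p, ((box A B).filter (fun z => g z = c)).card = A * B := by
  classical
  rw [← card_box, card_eq_sum_card_fiberwise (f := g) (t := univ) (fun z _ => by simp)]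

theorem sum_allLines (A B : ℕ) :
    ∑ l ∈ allLines p, (pts A B l).card = A * B * (p + 1) := by
  classical
  rw [allLines_eq, sum_union disj_lines, sum_image, sum_image]
  · have h1 : ∑ c : ZMod p, (pts A B (vl c)).card = A * B := by
      rw [← sum_fib A B (fun z => (cst p z).1)]
      apply sum_congr rfl
      intro c _
      congr 1
      ext z
      rw [mem_pts, mem_filter, mem_vl]
    have h2 : ∀ s : ZMod p, ∑ c : ZMod p, (pts A B (sl s c)).card = A * B := by
      intro s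
      rw [← sum_fib A B (fun z => (cst p z).2 - s * (cst p z).1)]
      apply sum_congr rfl
      intro c _
      congr 1
      ext z
      rw [mem_pts, mem_filter, mem_sl, sub_eq_iff_eq_add, add_comm c]
    rw [h1, ← univ_product_univ, sum_product]
    simp only [h2]
    rw [sum_const, card_univ, ZMod.card, smul_eq_mul]
    ring
  · intro c _ c' _ h
    exact vl_inj h
  · intro q _ q' _ h
    obtain ⟨h1, h2⟩ := sl_inj h
    exact Prod.ext h1 h2

/-- every point of the box is on `p + 1` lines -/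
theorem inc_le_mp (A B : ℕ) (L : Finset (Set (ZMod p × ZMod p))) (hL : ∀ l ∈ L, IsLine l) :
    ∑ l ∈ L, (pts A B l).card ≤ A * B * (p + 1) := by
  rw [← sum_allLines]
  apply sum_le_sum_of_subset
  intro l hl
  exact mem_allLines.2 (hL l hl)

theorem card_pts_sl (A B : ℕ) (hB : B ≤ p) (s c : ZMod p) : (pts A B (sl s c)).card ≤ A := by
  classical
  have h1 : ((pts A B (sl s c)).image Prod.fst).card = (pts A B (sl s c)).card := by
    apply card_image_of_injOn
    intro z hz w hw hzw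
    rw [mem_coe, mem_pts, mem_box, mem_sl] at hz hw
    obtain ⟨⟨⟨hz1, hz2⟩, hz3, hz4⟩, hz5⟩ := hz
    obtain ⟨⟨⟨hw1, hw2⟩, hw3, hw4⟩, hw5⟩ := hw
    have h2 : ((z.2 : ℤ) : ZMod p) = ((w.2 : ℤ) : ZMod p) := by
      change (cst p z).2 = (cst p w).2
      rw [hz5, hw5]
      unfold cst
      rw [hzw]
    have h3 : ((z.2 - w.2 : ℤ) : ZMod p) = 0 := by
      rw [Int.cast_sub, h2, sub_self]
    rw [ZMod.intCast_zmod_eq_zero_iff_dvd] at h3
    have h4 : z.2 - w.2 = 0 := Int.eq_zero_of_abs_lt_dvd h3 (by rw [abs_lt]; constructor <;> omega)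
    exact Prod.ext hzw (by omega)
  rw [← h1]
  have h2 : (pts A B (sl s c)).image Prod.fst ⊆ Ico (0 : ℤ) A := by
    intro x hx
    obtain ⟨z, hz, rfl⟩ := mem_image.1 hx
    rw [mem_pts, mem_box] at hz
    rw [mem_Ico]
    exact hz.1.1
  have := card_le_card h2
  rw [Int.card_Ico] at this
  simpa using this

theorem card_pts_vl (A B : ℕ) (hA : A ≤ p) (c : ZMod p) : (pts A B (vl c)).card ≤ B := by
  classical
  have h1 : ((pts A B (vl c)).image Prod.snd).card = (pts A B (vl c)).card := by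
    apply card_image_of_injOn
    intro z hz w hw hzw
    rw [mem_coe, mem_pts, mem_box, mem_vl] at hz hw
    obtain ⟨⟨⟨hz1, hz2⟩, hz3, hz4⟩, hz5⟩ := hz
    obtain ⟨⟨⟨hw1, hw2⟩, hw3, hw4⟩, hw5⟩ := hw
    have h2 : ((z.1 : ℤ) : ZMod p) = ((w.1 : ℤ) : ZMod p) := by
      change (cst p z).1 = (cst p w).1
      rw [hz5, hw5]
    have h3 : ((z.1 - w.1 : ℤ) : ZMod p) = 0 := by
      rw [Int.cast_sub, h2, sub_self]
    rw [ZMod.intCast_zmod_eq_zero_iff_dvd] at h3
    have h4 : z.1 - w.1 = 0 := Int.eq_zero_of_abs_lt_dvd h3 (by rw [abs_lt]; constructor <;> omega)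
    exact Prod.ext (by omega) hzw
  rw [← h1]
  have h2 : (pts A B (vl c)).image Prod.snd ⊆ Ico (0 : ℤ) B := by
    intro x hx
    obtain ⟨z, hz, rfl⟩ := mem_image.1 hx
    rw [mem_pts, mem_box] at hz
    rw [mem_Ico]
    exact hz.1.2
  have := card_le_card h2
  rw [Int.card_Ico] at this
  simpa using this

/-- a line has at most `B` points of the box when `A ≤ B` -/
theorem inc_le_nB (A B : ℕ) (hAB : A ≤ B) (hB : B ≤ p) (L : Finset (Set (ZMod p × ZMod p)))
    (hL : ∀ l ∈ L, IsLine l) : ∑ l ∈ L, (pts A B l).card ≤ L.card * B := by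
  rw [← smul_eq_mul, ← sum_const]
  apply sum_le_sum
  intro l hl
  rcases isLine_cases (hL l hl) with ⟨s, c, rfl⟩ | ⟨c, rfl⟩
  · exact (card_pts_sl A B hB s c).trans hAB
  · exact card_pts_vl A B (hAB.trans hB) c

theorem inc_le_nA (A B : ℕ) (hB : B ≤ p) (L : Finset (Set (ZMod p × ZMod p)))
    (hL : ∀ l ∈ L, IsLine l) : ∑ l ∈ L, (pts A B l).card ≤ A * B + L.card * A := by
  classical
  rw [← sum_filter_add_sum_filter_not L (fun l => ∃ c, l = vl c)]
  apply add_le_add
  · apply sum_parallel A B _ (fun l hl => hL l (mem_filter.1 hl).1) (0, 1)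
    · intro h
      exact one_ne_zero (congrArg Prod.snd h)
    · intro l hl z hz
      obtain ⟨_, c, rfl⟩ := mem_filter.1 hl
      rw [mem_vl] at hz ⊢
      rw [Prod.fst_add, hz]
      simp
  · calc ∑ l ∈ L.filter (fun l => ¬ ∃ c, l = vl c), (pts A B l).card
        ≤ ∑ l ∈ L.filter (fun l => ¬ ∃ c, l = vl c), A := by
          apply sum_le_sum
          intro l hl
          obtain ⟨hl1, hl2⟩ := mem_filter.1 hl
          rcases isLine_cases (hL l hl1) with ⟨s, c, rfl⟩ | h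
          · exact card_pts_sl A B hB s c
          · exact absurd h hl2
      _ = (L.filter (fun l => ¬ ∃ c, l = vl c)).card * A := by rw [sum_const, smul_eq_mul]
      _ ≤ L.card * A := Nat.mul_le_mul_right _ (card_le_card (filter_subset _ _))

/-! ### The richest lines -/

theorem exists_top {α : Type*} (S : Finset α) (k : α → ℕ) (n : ℕ) (hn : n ≤ S.card) :
    ∃ L ⊆ S, L.card = n ∧ ∀ l ∈ L, ∀ l' ∈ S, l' ∉ L → k l' ≤ k l := by
  classical
  induction n with
  | zero => exact ⟨∅, empty_subset _, rfl, fun l hl => absurd hl (notMem_empty _)⟩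
  | succ n ih =>
    obtain ⟨L, hLS, hLn, hL⟩ := ih (by omega)
    have hne : (S \ L).Nonempty := by
      rw [← card_pos, card_sdiff_of_subset hLS]
      omega
    obtain ⟨l0, hl0, hmax⟩ := exists_max_image (S \ L) k hne
    obtain ⟨hl0S, hl0L⟩ := mem_sdiff.1 hl0
    refine ⟨insert l0 L, ?_, ?_, ?_⟩
    · intro l hl
      rcases mem_insert.1 hl with rfl | h
      · exact hl0S
      · exact hLS h
    · rw [card_insert_of_notMem hl0L, hLn]
    · intro l hl l' hl' hl'n
      have h1 : l' ∉ L := fun h => hl'n (mem_insert_of_mem h)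
      rcases mem_insert.1 hl with rfl | h
      · exact hmax l' (mem_sdiff.2 ⟨hl', h1⟩)
      · exact hL l h l' hl' h1

theorem top_average {α : Type*} (S L : Finset α) (k : α → ℕ) (hLS : L ⊆ S)
    (hL : ∀ l ∈ L, ∀ l' ∈ S, l' ∉ L → k l' ≤ k l) :
    L.card * ∑ l ∈ S, k l ≤ S.card * ∑ l ∈ L, k l := by
  classical
  rw [← sum_sdiff hLS]
  have h1 : L.card * ∑ l' ∈ S \ L, k l' ≤ (S \ L).card * ∑ l ∈ L, k l := by
    calc L.card * ∑ l' ∈ S \ L, k l' = ∑ l ∈ L, ∑ l' ∈ S \ L, k l' := by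
          rw [sum_const, smul_eq_mul]
      _ ≤ ∑ l ∈ L, ∑ l' ∈ S \ L, k l := by
          apply sum_le_sum
          intro l hl
          apply sum_le_sum
          intro l' hl'
          exact hL l hl l' (mem_sdiff.1 hl').1 (mem_sdiff.1 hl').2
      _ = (S \ L).card * ∑ l ∈ L, k l := by
          rw [mul_sum]
          apply sum_congr rfl
          intro l _
          rw [sum_const, smul_eq_mul]
  have h2 : (S \ L).card + L.card = S.card := card_sdiff_add_card_eq_card hLS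
  calc L.card * (∑ l' ∈ S \ L, k l' + ∑ l ∈ L, k l)
      = L.card * ∑ l' ∈ S \ L, k l' + L.card * ∑ l ∈ L, k l := by ring
    _ ≤ (S \ L).card * ∑ l ∈ L, k l + L.card * ∑ l ∈ L, k l := by omega
    _ = ((S \ L).card + L.card) * ∑ l ∈ L, k l := by ring
    _ = S.card * ∑ l ∈ L, k l := by rw [h2]

/-- the `n` richest lines have at least the average number of incidences, and at least
`min (n, m p)` -/
theorem lower_top (A B n : ℕ) (hn : n ≤ p ^ 2 + p) :
    ∃ L : Finset (Set (ZMod p × ZMod p)), (∀ l ∈ L, IsLine l) ∧ L.card = n ∧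
      n * (A * B) ≤ p * ∑ l ∈ L, (pts A B l).card ∧
      min n (A * B * p) ≤ ∑ l ∈ L, (pts A B l).card := by
  obtain ⟨L, hLS, hLn, hL⟩ := exists_top (allLines p) (fun l => (pts A B l).card) n
    (by rw [card_allLines]; exact hn)
  refine ⟨L, fun l hl => mem_allLines.1 (hLS hl), hLn, ?_, ?_⟩
  · have h1 := top_average (allLines p) L (fun l => (pts A B l).card) hLS hL
    rw [sum_allLines, card_allLines, hLn] at h1
    have h2 : (p + 1) * (n * (A * B)) ≤ (p + 1) * (p * ∑ l ∈ L, (pts A B l).card) := by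
      calc (p + 1) * (n * (A * B)) = n * (A * B * (p + 1)) := by ring
        _ ≤ (p ^ 2 + p) * ∑ l ∈ L, (pts A B l).card := h1
        _ = (p + 1) * (p * ∑ l ∈ L, (pts A B l).card) := by ring
    exact Nat.le_of_mul_le_mul_left h2 (Nat.succ_pos p)
  · by_cases hz : ∃ l ∈ L, (pts A B l).card = 0
    · obtain ⟨l0, hl0, hk0⟩ := hz
      have h1 : ∑ l ∈ L, (pts A B l).card = ∑ l ∈ allLines p, (pts A B l).card := by
        apply sum_subset hLS
        intro l' hl' hn'
        have := hL l0 hl0 l' hl' hn'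
        omega
      rw [h1, sum_allLines]
      apply (min_le_right _ _).trans
      exact Nat.mul_le_mul_left _ (Nat.le_succ p)
    · push Not at hz
      apply (min_le_left _ _).trans
      rw [← hLn, card_eq_sum_ones]
      apply sum_le_sum
      intro l hl
      have := hz l hl
      omega

/-- extension to exactly `n` lines -/
theorem extend_lines (A B n : ℕ) (hn : n ≤ p ^ 2 + p) (L : Finset (Set (ZMod p × ZMod p)))
    (hL : ∀ l ∈ L, IsLine l) (hLn : L.card ≤ n) :
    ∃ L' : Finset (Set (ZMod p × ZMod p)), (∀ l ∈ L', IsLine l) ∧ L'.card = n ∧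
      ∑ l ∈ L, (pts A B l).card ≤ ∑ l ∈ L', (pts A B l).card := by
  have hsub : L ⊆ allLines p := fun l hl => mem_allLines.2 (hL l hl)
  obtain ⟨L', h1, h2, h3⟩ := exists_subsuperset_card_eq hsub hLn (by rw [card_allLines]; exact hn)
  exact ⟨L', fun l hl => mem_allLines.1 (h2 hl), h3, sum_le_sum_of_subset h1⟩

/-- vertical lines -/
theorem lower_vert (A B n : ℕ) (hA : A ≤ p) (hn : n ≤ p ^ 2 + p) :
    ∃ L : Finset (Set (ZMod p × ZMod p)), (∀ l ∈ L, IsLine l) ∧ L.card = n ∧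
      min (n * B) (A * B) ≤ ∑ l ∈ L, (pts A B l).card := by
  classical
  have hcard : ((range (min n A)).image (fun i : ℕ => vl ((i : ℕ) : ZMod p))).card = min n A := by
    rw [card_image_of_injOn, card_range]
    intro i hi j hj hij
    have h1 := vl_inj hij
    rw [coe_range, Set.mem_Iio] at hi hj
    have h2 := (ZMod.natCast_eq_natCast_iff' i j p).1 h1
    rw [Nat.mod_eq_of_lt (by omega), Nat.mod_eq_of_lt (by omega)] at h2
    exact h2
  obtain ⟨L', h1, h2, h3⟩ := extend_lines A B n hn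
    ((range (min n A)).image (fun i : ℕ => vl ((i : ℕ) : ZMod p)))
    (by
      intro l hl
      obtain ⟨i, _, rfl⟩ := mem_image.1 hl
      exact isLine_vl _)
    (by rw [hcard]; exact min_le_left _ _)
  refine ⟨L', h1, h2, le_trans ?_ h3⟩
  have h4 : min (n * B) (A * B) = min n A * B := by
    rcases le_total n A with h | h
    · rw [min_eq_left h, min_eq_left (Nat.mul_le_mul_right _ h)]
    · rw [min_eq_right h, min_eq_right (Nat.mul_le_mul_right _ h)]
  rw [h4, ← hcard, ← smul_eq_mul, ← sum_const, hcard]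
  apply sum_le_sum
  intro l hl
  obtain ⟨i, hi, rfl⟩ := mem_image.1 hl
  rw [mem_range] at hi
  have h5 : (Ico (0 : ℤ) B).card = B := by rw [Int.card_Ico]; simp
  refine h5.symm.le.trans ?_
  apply card_le_card_of_injOn (fun y : ℤ => ((i : ℤ), y))
  · intro y hy
    rw [mem_coe, mem_Ico] at hy
    rw [mem_coe, mem_pts, mem_box, mem_vl]
    refine ⟨⟨⟨by positivity, ?_⟩, hy.1, hy.2⟩, ?_⟩
    · simp only
      have : i < A := by omega
      exact_mod_cast this
    · unfold cst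
      simp
  · intro y _ y' _ h
    exact congrArg Prod.snd h

end Pool.Agent.Lib.MP_fdf47d_co
end

section

/-!
# The construction: lines with few directions
-/

set_option autoImplicit false

open Finset

namespace Pool.Agent.Lib.MP_fdf47d_co

theorem sum_inv_sq (n : ℕ) : ∑ g ∈ Icc 2 n, (1 : ℝ) / (g : ℝ) ^ 2 ≤ 3 / 4 := by
  have key : ∀ n : ℕ, 2 ≤ n → ∑ g ∈ Icc 2 n, (1 : ℝ) / (g : ℝ) ^ 2 ≤ 3 / 4 - 1 / n := by
    intro n hn
    induction n, hn using Nat.le_induction with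
    | base => norm_num
    | succ n hn ih =>
      rw [sum_Icc_succ_top (by omega)]
      have hnR : (2 : ℝ) ≤ n := by exact_mod_cast hn
      have h1 : (1 : ℝ) / ((n + 1 : ℕ) : ℝ) ^ 2 ≤ 1 / n - 1 / ((n + 1 : ℕ) : ℝ) := by
        push_cast
        rw [div_sub_div _ _ (by positivity) (by positivity), div_le_div_iff₀ (by positivity)
          (by positivity)]
        nlinarith
      linarith
  rcases lt_or_ge n 2 with h | h
  · rw [Icc_eq_empty (by omega), sum_empty]
    norm_num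
  · have h1 := key n h
    have h2 : (0 : ℝ) ≤ 1 / n := by positivity
    linarith

/-- coprime pairs in `(0, D1] × (0, D2]` -/
def cop (D1 D2 : ℕ) : Finset (ℕ × ℕ) :=
  (Ioc 0 D1 ×ˢ Ioc 0 D2).filter (fun v => v.1.Coprime v.2)

theorem mem_cop {D1 D2 : ℕ} {v : ℕ × ℕ} :
    v ∈ cop D1 D2 ↔ ((0 < v.1 ∧ v.1 ≤ D1) ∧ 0 < v.2 ∧ v.2 ≤ D2) ∧ v.1.Coprime v.2 := by
  unfold cop
  rw [mem_filter, mem_product, mem_Ioc, mem_Ioc]

theorem card_cop_le (D1 D2 : ℕ) : (cop D1 D2).card ≤ D1 * D2 := by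
  unfold cop
  apply (card_filter_le _ _).trans
  rw [card_product, Nat.card_Ioc, Nat.card_Ioc]
  simp

theorem card_cop (D1 D2 : ℕ) : D1 * D2 ≤ 4 * (cop D1 D2).card := by
  classical
  have h1 : ((Ioc 0 D1 ×ˢ Ioc 0 D2).filter (fun v : ℕ × ℕ => v.1.Coprime v.2)).card +
      ((Ioc 0 D1 ×ˢ Ioc 0 D2).filter (fun v : ℕ × ℕ => ¬ v.1.Coprime v.2)).card = D1 * D2 := by
    rw [card_filter_add_card_filter_not, card_product, Nat.card_Ioc, Nat.card_Ioc]
    simp
  have h2 : ((Ioc 0 D1 ×ˢ Ioc 0 D2).filter (fun v : ℕ × ℕ => ¬ v.1.Coprime v.2)).card ≤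
      ∑ g ∈ Icc 2 D1, (D1 / g) * (D2 / g) := by
    have hsub : (Ioc 0 D1 ×ˢ Ioc 0 D2).filter (fun v : ℕ × ℕ => ¬ v.1.Coprime v.2) ⊆
        (Icc 2 D1).biUnion (fun g => ((Ioc 0 D1).filter (fun x => g ∣ x)) ×ˢ
          ((Ioc 0 D2).filter (fun x => g ∣ x))) := by
      intro v hv
      rw [mem_filter, mem_product, mem_Ioc, mem_Ioc] at hv
      obtain ⟨⟨⟨ha0, ha⟩, hb0, hb⟩, hc⟩ := hv
      rw [mem_biUnion]
      have hg0 : 0 < Nat.gcd v.1 v.2 := Nat.gcd_pos_of_pos_left _ ha0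
      refine ⟨Nat.gcd v.1 v.2, ?_, ?_⟩
      · rw [mem_Icc]
        refine ⟨?_, (Nat.le_of_dvd ha0 (Nat.gcd_dvd_left _ _)).trans ha⟩
        have : Nat.gcd v.1 v.2 ≠ 1 := hc
        omega
      · rw [mem_product, mem_filter, mem_filter, mem_Ioc, mem_Ioc]
        exact ⟨⟨⟨ha0, ha⟩, Nat.gcd_dvd_left _ _⟩, ⟨hb0, hb⟩, Nat.gcd_dvd_right _ _⟩
    apply (card_le_card hsub).trans
    apply card_biUnion_le.trans
    apply sum_le_sum
    intro g _
    rw [card_product, Nat.Ioc_filter_dvd_card_eq_div, Nat.Ioc_filter_dvd_card_eq_div]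
  have h3 : ((∑ g ∈ Icc 2 D1, (D1 / g) * (D2 / g) : ℕ) : ℝ) ≤ (D1 : ℝ) * D2 * (3 / 4) := by
    push_cast
    calc ∑ g ∈ Icc 2 D1, (((D1 / g : ℕ) : ℝ) * ((D2 / g : ℕ) : ℝ))
        ≤ ∑ g ∈ Icc 2 D1, (D1 : ℝ) * D2 * (1 / (g : ℝ) ^ 2) := by
          apply sum_le_sum
          intro g hg
          rw [mem_Icc] at hg
          have hgR : (0 : ℝ) < g := by
            have : 0 < g := by omega
            exact_mod_cast this
          calc ((D1 / g : ℕ) : ℝ) * ((D2 / g : ℕ) : ℝ) ≤ (D1 / g : ℝ) * (D2 / g : ℝ) := by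
                apply mul_le_mul Nat.cast_div_le Nat.cast_div_le (by positivity) (by positivity)
            _ = (D1 : ℝ) * D2 * (1 / (g : ℝ) ^ 2) := by
                field_simp
      _ = (D1 : ℝ) * D2 * ∑ g ∈ Icc 2 D1, (1 / (g : ℝ) ^ 2) := by rw [mul_sum]
      _ ≤ (D1 : ℝ) * D2 * (3 / 4) := by
          apply mul_le_mul_of_nonneg_left (sum_inv_sq D1) (by positivity)
  have h4 : (((cop D1 D2).card : ℕ) : ℝ) +
      (((Ioc 0 D1 ×ˢ Ioc 0 D2).filter (fun v : ℕ × ℕ => ¬ v.1.Coprime v.2)).card : ℝ) =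
      (D1 : ℝ) * D2 := by
    unfold cop
    exact_mod_cast h1
  have h5 : (((Ioc 0 D1 ×ˢ Ioc 0 D2).filter (fun v : ℕ × ℕ => ¬ v.1.Coprime v.2)).card : ℝ) ≤
      (D1 : ℝ) * D2 * (3 / 4) := by
    refine le_trans ?_ h3
    exact_mod_cast h2
  have h6 : (D1 : ℝ) * D2 ≤ 4 * ((cop D1 D2).card : ℝ) := by linarith
  exact_mod_cast h6

variable {p : ℕ}

/-- the line through `x` with direction `v` -/
def ld (x : ℤ × ℤ) (v : ℕ × ℕ) : Set (ZMod p × ZMod p) :=
  {y | (v.1 : ZMod p) * (y.2 - (x.2 : ZMod p)) = (v.2 : ZMod p) * (y.1 - (x.1 : ZMod p))}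

theorem mem_ld {x : ℤ × ℤ} {v : ℕ × ℕ} {y : ZMod p × ZMod p} :
    y ∈ ld x v ↔
      (v.1 : ZMod p) * (y.2 - (x.2 : ZMod p)) = (v.2 : ZMod p) * (y.1 - (x.1 : ZMod p)) := Iff.rfl

theorem isLine_ld {x : ℤ × ℤ} {v : ℕ × ℕ} (hv : ((v.1 : ℕ) : ZMod p) ≠ 0) :
    IsLine (ld (p := p) x v) := by
  refine ⟨-(v.2 : ZMod p), (v.1 : ZMod p), (v.2 : ZMod p) * (x.1 : ZMod p) -
    (v.1 : ZMod p) * (x.2 : ZMod p), Or.inr hv, ?_⟩
  ext y
  rw [mem_ld, mem_ln]
  constructor
  · intro h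
    linear_combination h
  · intro h
    linear_combination h

theorem cst_mem_ld (x : ℤ × ℤ) (v : ℕ × ℕ) (t : ℕ) :
    cst p (x.1 + t * v.1, x.2 + t * v.2) ∈ ld x v := by
  rw [mem_ld]
  unfold cst
  push_cast
  ring

theorem shift_ld {x : ℤ × ℤ} {v : ℕ × ℕ} {z : ZMod p × ZMod p} (hz : z ∈ ld x v) :
    z + ((v.1 : ZMod p), (v.2 : ZMod p)) ∈ ld x v := by
  rw [mem_ld] at hz ⊢
  simp only [Prod.fst_add, Prod.snd_add]
  linear_combination hz

theorem natCast_ne_zero' {a : ℕ} (h0 : 0 < a) (h1 : a < p) : ((a : ℕ) : ZMod p) ≠ 0 := by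
  intro h
  rw [ZMod.natCast_eq_zero_iff] at h
  exact absurd (Nat.le_of_dvd h0 h) (by omega)

theorem ld_inj {D1 D2 : ℕ} (hD : D1 * D2 < p) {x : ℤ × ℤ} {v v' : ℕ × ℕ}
    (hv : v ∈ cop D1 D2) (hv' : v' ∈ cop D1 D2) (h : ld (p := p) x v = ld x v') : v = v' := by
  rw [mem_cop] at hv hv'
  obtain ⟨⟨⟨a0, a1⟩, b0, b1⟩, hc⟩ := hv
  obtain ⟨⟨⟨a0', a1'⟩, b0', b1'⟩, hc'⟩ := hv'
  have h1 : cst p (x.1 + (1 : ℕ) * v'.1, x.2 + (1 : ℕ) * v'.2) ∈ ld x v' := cst_mem_ld x v' 1
  rw [← h, mem_ld] at h1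
  unfold cst at h1
  push_cast at h1
  have h2 : ((v.1 * v'.2 : ℕ) : ZMod p) = ((v.2 * v'.1 : ℕ) : ZMod p) := by
    push_cast
    linear_combination h1
  rw [ZMod.natCast_eq_natCast_iff'] at h2
  have h3 : v.1 * v'.2 ≤ D1 * D2 := Nat.mul_le_mul a1 b1'
  have h4 : v.2 * v'.1 ≤ D1 * D2 := by
    rw [mul_comm]
    exact Nat.mul_le_mul a1' b1
  rw [Nat.mod_eq_of_lt (by omega), Nat.mod_eq_of_lt (by omega)] at h2
  have h5 : v.1 ∣ v'.1 := by
    apply hc.dvd_of_dvd_mul_left
    rw [← h2]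
    exact dvd_mul_right _ _
  have h6 : v'.1 ∣ v.1 := by
    apply hc'.dvd_of_dvd_mul_right
    rw [h2]
    exact dvd_mul_left _ _
  have h7 : v.1 = v'.1 := Nat.dvd_antisymm h5 h6
  apply Prod.ext h7
  rw [h7, mul_comm v.2] at h2
  exact (Nat.eq_of_mul_eq_mul_left a0' h2).symm

variable [Fact p.Prime]

theorem construct (A B D1 D2 τ : ℕ) (hD2 : 1 ≤ D2) (hD : D1 * D2 < p)
    (h1 : 2 * (τ * D1) + 1 ≤ A) (h2 : 2 * (τ * D2) + 1 ≤ B) :
    ∃ L : Finset (Set (ZMod p × ZMod p)), (∀ l ∈ L, IsLine l) ∧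
      L.card * (τ + 1) ≤ D1 * D2 * (A * B) ∧
      D1 * D2 * (A * B) ≤ 16 * ∑ l ∈ L, (pts A B l).card := by
  classical
  set A' := (A + 1) / 2 with hA'
  set B' := (B + 1) / 2 with hB'
  set L : Finset (Set (ZMod p × ZMod p)) :=
    (cop D1 D2).biUnion (fun v => (box A' B').image (fun x => ld x v)) with hLdef
  have hv0 : ∀ v ∈ cop D1 D2, ((v.1 : ℕ) : ZMod p) ≠ 0 := by
    intro v hv
    rw [mem_cop] at hv
    apply natCast_ne_zero' hv.1.1.1
    calc v.1 ≤ D1 := hv.1.1.2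
      _ = D1 * 1 := (mul_one _).symm
      _ ≤ D1 * D2 := Nat.mul_le_mul_left _ hD2
      _ < p := hD
  have hL : ∀ l ∈ L, IsLine l := by
    intro l hl
    rw [hLdef, mem_biUnion] at hl
    obtain ⟨v, hv, hl⟩ := hl
    obtain ⟨x, _, rfl⟩ := mem_image.1 hl
    exact isLine_ld (hv0 v hv)
  refine ⟨L, hL, ?_, ?_⟩
  · -- the number of lines
    have hrich : ∀ v ∈ cop D1 D2, ∀ l ∈ (box A' B').image (fun x => ld (p := p) x v),
        τ + 1 ≤ (pts A B l).card := by
      intro v hv l hl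
      obtain ⟨x, hx, rfl⟩ := mem_image.1 hl
      rw [mem_box] at hx
      rw [mem_cop] at hv
      rw [← card_range (τ + 1)]
      apply card_le_card_of_injOn (fun t : ℕ => ((x.1 + t * v.1, x.2 + t * v.2) : ℤ × ℤ))
      · intro t ht
        rw [mem_coe, mem_range] at ht
        rw [mem_coe, mem_pts, mem_box]
        have e1 : t * v.1 ≤ τ * D1 := Nat.mul_le_mul (by omega) hv.1.1.2
        have e2 : t * v.2 ≤ τ * D2 := Nat.mul_le_mul (by omega) hv.1.2.2
        have e3 : ((t * v.1 : ℕ) : ℤ) = (t : ℤ) * v.1 := by push_cast; ring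
        have e4 : ((t * v.2 : ℕ) : ℤ) = (t : ℤ) * v.2 := by push_cast; ring
        refine ⟨?_, cst_mem_ld x v t⟩
        simp only
        rw [← e3, ← e4]
        omega
      · intro t _ t' _ htt
        have e1 : x.1 + (t : ℤ) * v.1 = x.1 + (t' : ℤ) * v.1 := congrArg Prod.fst htt
        have e2 : (t : ℤ) * v.1 = (t' : ℤ) * v.1 := by linarith
        have e3 : (v.1 : ℤ) ≠ 0 := by
          have := hv.1.1.1
          omega
        exact_mod_cast mul_right_cancel₀ e3 e2
    have hpar : ∀ v ∈ cop D1 D2,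
        ((box A' B').image (fun x => ld (p := p) x v)).card * (τ + 1) ≤ A * B := by
      intro v hv
      calc ((box A' B').image (fun x => ld (p := p) x v)).card * (τ + 1)
          = ∑ l ∈ (box A' B').image (fun x => ld (p := p) x v), (τ + 1) := by
            rw [sum_const, smul_eq_mul]
        _ ≤ ∑ l ∈ (box A' B').image (fun x => ld (p := p) x v), (pts A B l).card :=
            sum_le_sum (hrich v hv)
        _ ≤ A * B := by
            apply sum_parallel A B _ _ ((v.1 : ZMod p), (v.2 : ZMod p))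
            · intro h
              exact hv0 v hv (congrArg Prod.fst h)
            · intro l hl z hz
              obtain ⟨x, _, rfl⟩ := mem_image.1 hl
              exact shift_ld hz
            · intro l hl
              obtain ⟨x, _, rfl⟩ := mem_image.1 hl
              exact isLine_ld (hv0 v hv)
    calc L.card * (τ + 1)
        ≤ (∑ v ∈ cop D1 D2, ((box A' B').image (fun x => ld (p := p) x v)).card) * (τ + 1) :=
          Nat.mul_le_mul_right _ card_biUnion_le
      _ = ∑ v ∈ cop D1 D2, ((box A' B').image (fun x => ld (p := p) x v)).card * (τ + 1) := by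
          rw [sum_mul]
      _ ≤ ∑ v ∈ cop D1 D2, A * B := sum_le_sum hpar
      _ = (cop D1 D2).card * (A * B) := by rw [sum_const, smul_eq_mul]
      _ ≤ D1 * D2 * (A * B) := Nat.mul_le_mul_right _ (card_cop_le D1 D2)
  · -- the number of incidences
    have hmono : ∀ l ∈ L, ((box A' B').filter (fun z => cst p z ∈ l)).card ≤
        (pts A B l).card := by
      intro l _
      apply card_le_card
      intro z hz
      rw [mem_filter, mem_box] at hz
      rw [mem_pts, mem_box]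
      refine ⟨?_, hz.2⟩
      omega
    have hdeg : ∀ z ∈ box A' B', (cop D1 D2).card ≤ (L.filter (fun l => cst p z ∈ l)).card := by
      intro z hz
      apply card_le_card_of_injOn (fun v => ld (p := p) z v)
      · intro v hv
        rw [mem_coe] at hv
        rw [mem_coe, mem_filter]
        constructor
        · rw [hLdef, mem_biUnion]
          exact ⟨v, hv, mem_image.2 ⟨z, hz, rfl⟩⟩
        · have := cst_mem_ld (p := p) z v 0
          simpa using this
      · intro v hv v' hv' h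
        exact ld_inj hD hv hv' h
    have hdc : ∑ l ∈ L, ((box A' B').filter (fun z => cst p z ∈ l)).card =
        ∑ z ∈ box A' B', (L.filter (fun l => cst p z ∈ l)).card := by
      simp only [card_filter]
      rw [sum_comm]
    have e1 : (box A' B').card * (cop D1 D2).card ≤ ∑ l ∈ L, (pts A B l).card := by
      calc (box A' B').card * (cop D1 D2).card = ∑ z ∈ box A' B', (cop D1 D2).card := by
            rw [sum_const, smul_eq_mul]
        _ ≤ ∑ z ∈ box A' B', (L.filter (fun l => cst p z ∈ l)).card := sum_le_sum hdeg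
        _ = ∑ l ∈ L, ((box A' B').filter (fun z => cst p z ∈ l)).card := hdc.symm
        _ ≤ ∑ l ∈ L, (pts A B l).card := sum_le_sum hmono
    rw [card_box] at e1
    have e2 : A ≤ 2 * A' := by omega
    have e3 : B ≤ 2 * B' := by omega
    have e4 := card_cop D1 D2
    calc D1 * D2 * (A * B) ≤ (4 * (cop D1 D2).card) * ((2 * A') * (2 * B')) :=
          Nat.mul_le_mul e4 (Nat.mul_le_mul e2 e3)
      _ = 16 * (A' * B' * (cop D1 D2).card) := by ring
      _ ≤ 16 * ∑ l ∈ L, (pts A B l).card := Nat.mul_le_mul_left _ e1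

end Pool.Agent.Lib.MP_fdf47d_co
end

section

/-!
# The lower bound for a box
-/

set_option autoImplicit false

open Finset

namespace Pool.Agent.Lib.MP_fdf47d_co

variable {p : ℕ} [Fact p.Prime]

/-- few lines: all lines have slope `b`, `1 ≤ b ≤ D2` -/
theorem lower_one (A B n : ℕ) (hA1 : 1 ≤ A) (hAB : A ≤ B) (hn : n ≤ p ^ 2 + p)
    (h2B : 2 * B ≤ n) (hnA : n * A ≤ 2 * B ^ 2) :
    ∃ L : Finset (Set (ZMod p × ZMod p)), (∀ l ∈ L, IsLine l) ∧ L.card = n ∧
      n * A ≤ 64 * ∑ l ∈ L, (pts A B l).card := by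
  have hp2 : 2 ≤ p := (Fact.out : p.Prime).two_le
  have hB1 : 1 ≤ B := hA1.trans hAB
  set D := n / (2 * B) with hD
  have hDn : D * (2 * B) ≤ n := Nat.div_mul_le_self _ _
  have hD1 : 1 ≤ D := by
    rw [hD, Nat.le_div_iff_mul_le (by omega)]
    omega
  have hnD : n < (D + 1) * (2 * B) := by
    rw [hD, mul_comm]
    exact Nat.lt_mul_div_succ n (by omega)
  have hDA : D * A ≤ B := by
    have h1 : D * (2 * B) * A ≤ 2 * B ^ 2 := (Nat.mul_le_mul_right _ hDn).trans hnA
    have h2 : (2 * B) * (D * A) ≤ (2 * B) * B := by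
      calc (2 * B) * (D * A) = D * (2 * B) * A := by ring
        _ ≤ 2 * B ^ 2 := h1
        _ = (2 * B) * B := by ring
    exact Nat.le_of_mul_le_mul_left h2 (by omega)
  have hDp : 1 * D < p := by
    rw [one_mul]
    by_contra hcon
    push Not at hcon
    have hBp : p ≤ B := by
      calc p ≤ D := hcon
        _ = D * 1 := (mul_one _).symm
        _ ≤ D * A := Nat.mul_le_mul_left _ hA1
        _ ≤ B := hDA
    have h1 : p * (2 * p) ≤ p ^ 2 + p := by
      calc p * (2 * p) ≤ D * (2 * B) := Nat.mul_le_mul hcon (by omega)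
        _ ≤ n := hDn
        _ ≤ p ^ 2 + p := hn
    nlinarith
  set τ := (A - 1) / 2 with hτ
  have h1 : 2 * (τ * 1) + 1 ≤ A := by omega
  have h2 : 2 * (τ * D) + 1 ≤ B := by
    have e1 : 2 * τ ≤ A - 1 := by omega
    have e2 : 2 * τ * D ≤ (A - 1) * D := Nat.mul_le_mul_right _ e1
    have e3 : (A - 1) * D + D = A * D := by
      obtain ⟨k, rfl⟩ : ∃ k, A = k + 1 := ⟨A - 1, by omega⟩
      rw [Nat.add_sub_cancel]
      ring
    have e4 : A * D = D * A := mul_comm _ _
    have e5 : 2 * (τ * D) = 2 * τ * D := by ring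
    omega
  obtain ⟨L, hL, hLc, hLi⟩ := construct (p := p) A B 1 D τ hD1 hDp h1 h2
  have hLn : L.card ≤ n := by
    have e1 : A ≤ 2 * (τ + 1) := by omega
    have e2 : A * L.card ≤ A * (D * (2 * B)) := by
      calc A * L.card ≤ 2 * (τ + 1) * L.card := Nat.mul_le_mul_right _ e1
        _ = 2 * (L.card * (τ + 1)) := by ring
        _ ≤ 2 * (1 * D * (A * B)) := Nat.mul_le_mul_left _ hLc
        _ = A * (D * (2 * B)) := by ring
    exact (Nat.le_of_mul_le_mul_left e2 (by omega)).trans hDn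
  obtain ⟨L', hL', hLn', hle⟩ := extend_lines A B n hn L hL hLn
  refine ⟨L', hL', hLn', ?_⟩
  have e1 : n ≤ 4 * B * D := by nlinarith
  calc n * A ≤ 4 * B * D * A := Nat.mul_le_mul_right _ e1
    _ = 4 * (1 * D * (A * B)) := by ring
    _ ≤ 4 * (16 * ∑ l ∈ L, (pts A B l).card) := Nat.mul_le_mul_left _ hLi
    _ = 64 * ∑ l ∈ L, (pts A B l).card := by ring
    _ ≤ 64 * ∑ l ∈ L', (pts A B l).card := Nat.mul_le_mul_left _ hle

/-- many lines -/
theorem lower_two (A B n : ℕ) (hA1 : 1 ≤ A) (hAB : A ≤ B) (hn : n ≤ p ^ 2 + p)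
    (hmn : A * B * n ≤ p ^ 3) (hnm : n < (A * B) ^ 2) (hnA : 2 * B ^ 2 ≤ n * A) :
    ∃ L : Finset (Set (ZMod p × ZMod p)), (∀ l ∈ L, IsLine l) ∧ L.card = n ∧
      ∃ D : ℕ, n * A ≤ 16 * D ^ 3 * B ^ 2 ∧
        D ^ 2 * B ^ 2 ≤ 32 * ∑ l ∈ L, (pts A B l).card := by
  have hB1 : 1 ≤ B := hA1.trans hAB
  -- the choice of `D`
  obtain ⟨D, hD1, hDle, hDlt⟩ : ∃ D : ℕ, 1 ≤ D ∧ 2 * D ^ 3 * B ^ 2 ≤ n * A ∧
      n * A < 2 * (D + 1) ^ 3 * B ^ 2 := by
    classical
    have hex : ∃ D : ℕ, n * A < 2 * (D + 1) ^ 3 * B ^ 2 := by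
      refine ⟨n * A, ?_⟩
      have e1 : n * A < n * A + 1 := Nat.lt_succ_self _
      have e2 : n * A + 1 ≤ (n * A + 1) ^ 3 := Nat.le_self_pow (by norm_num) _
      have e3 : (n * A + 1) ^ 3 ≤ 2 * (n * A + 1) ^ 3 * B ^ 2 := by
        have : 1 ≤ 2 * B ^ 2 := by nlinarith
        calc (n * A + 1) ^ 3 = (n * A + 1) ^ 3 * 1 := (mul_one _).symm
          _ ≤ (n * A + 1) ^ 3 * (2 * B ^ 2) := Nat.mul_le_mul_left _ this
          _ = 2 * (n * A + 1) ^ 3 * B ^ 2 := by ring
      omega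
    refine ⟨Nat.find hex, ?_, ?_, Nat.find_spec hex⟩
    · by_contra hcon
      have h0 : Nat.find hex = 0 := by omega
      have h1 := Nat.find_spec hex
      rw [h0] at h1
      omega
    · by_cases h0 : Nat.find hex = 0
      · rw [h0]
        simp
      · obtain ⟨k, hk⟩ := Nat.exists_eq_succ_of_ne_zero h0
        have h1 := Nat.find_min hex (m := k) (by omega)
        push Not at h1
        rw [hk]
        exact h1
  set D2 := D * B / A with hD2
  have hD2A : D2 * A ≤ D * B := Nat.div_mul_le_self _ _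
  have hD2lt : D * B < (D2 + 1) * A := by
    rw [hD2, mul_comm (_ + 1)]
    exact Nat.lt_mul_div_succ _ (by omega)
  have hD21 : 1 ≤ D2 := by
    rw [hD2, Nat.le_div_iff_mul_le (by omega), one_mul]
    calc A ≤ B := hAB
      _ = 1 * B := (one_mul _).symm
      _ ≤ D * B := Nat.mul_le_mul_right _ hD1
  -- `D * D2 < p`
  have hkey : 4 * (D * D2) ^ 3 * (A * B) ≤ n ^ 2 := by
    have e1 : (D * D2) ^ 3 * A ^ 3 ≤ D ^ 6 * B ^ 3 := by
      calc (D * D2) ^ 3 * A ^ 3 = D ^ 3 * (D2 * A) ^ 3 := by ring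
        _ ≤ D ^ 3 * (D * B) ^ 3 := Nat.mul_le_mul_left _ (Nat.pow_le_pow_left hD2A 3)
        _ = D ^ 6 * B ^ 3 := by ring
    have e2 : A ^ 2 * (4 * (D * D2) ^ 3 * (A * B)) ≤ A ^ 2 * n ^ 2 := by
      calc A ^ 2 * (4 * (D * D2) ^ 3 * (A * B)) = 4 * B * ((D * D2) ^ 3 * A ^ 3) := by ring
        _ ≤ 4 * B * (D ^ 6 * B ^ 3) := Nat.mul_le_mul_left _ e1
        _ = (2 * D ^ 3 * B ^ 2) ^ 2 := by ring
        _ ≤ (n * A) ^ 2 := Nat.pow_le_pow_left hDle 2
        _ = A ^ 2 * n ^ 2 := by ring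
    exact Nat.le_of_mul_le_mul_left e2 (by positivity)
  have hDp : D * D2 < p := by
    by_contra hcon
    push Not at hcon
    have hpp : 0 < p := (Fact.out : p.Prime).pos
    have e1 : 4 * p ^ 3 * (A * B) ≤ n ^ 2 := by
      refine le_trans ?_ hkey
      apply Nat.mul_le_mul_right
      exact Nat.mul_le_mul_left _ (Nat.pow_le_pow_left hcon 3)
    have hm1 : 1 ≤ A * B := Nat.mul_pos hA1 hB1
    set m := A * B with hm
    rcases le_or_gt p m with hpm | hpm
    · have e2 : (m * n) ^ 2 ≤ (p ^ 3) ^ 2 := Nat.pow_le_pow_left hmn 2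
      have e3 : p ^ 3 * (4 * m ^ 3) ≤ p ^ 3 * p ^ 3 := by
        calc p ^ 3 * (4 * m ^ 3) = m ^ 2 * (4 * p ^ 3 * m) := by ring
          _ ≤ m ^ 2 * n ^ 2 := Nat.mul_le_mul_left _ e1
          _ = (m * n) ^ 2 := by ring
          _ ≤ (p ^ 3) ^ 2 := e2
          _ = p ^ 3 * p ^ 3 := by ring
      have e4 : 4 * m ^ 3 ≤ p ^ 3 := Nat.le_of_mul_le_mul_left e3 (by positivity)
      have e5 : p ^ 3 ≤ m ^ 3 := Nat.pow_le_pow_left hpm 3
      have e6 : 0 < p ^ 3 := by positivity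
      omega
    · have e2 : n ^ 2 ≤ (m ^ 2) ^ 2 := Nat.pow_le_pow_left hnm.le 2
      have e3 : m * (4 * p ^ 3) ≤ m * m ^ 3 := by
        calc m * (4 * p ^ 3) = 4 * p ^ 3 * m := by ring
          _ ≤ n ^ 2 := e1
          _ ≤ (m ^ 2) ^ 2 := e2
          _ = m * m ^ 3 := by ring
      have e4 : 4 * p ^ 3 ≤ m ^ 3 := Nat.le_of_mul_le_mul_left e3 (by omega)
      have e5 : m ^ 3 ≤ p ^ 3 := Nat.pow_le_pow_left hpm.le 3
      have e6 : 0 < p ^ 3 := by positivity
      omega
  set τ := (A - 1) / (2 * D) with hτ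
  have hτ1 : τ * (2 * D) ≤ A - 1 := Nat.div_mul_le_self _ _
  have hτ2 : A - 1 < (τ + 1) * (2 * D) := by
    rw [hτ, mul_comm (_ + 1)]
    exact Nat.lt_mul_div_succ _ (by omega)
  have h1 : 2 * (τ * D) + 1 ≤ A := by
    have : 2 * (τ * D) = τ * (2 * D) := by ring
    omega
  have h2 : 2 * (τ * D2) + 1 ≤ B := by
    by_contra hcon
    push Not at hcon
    have e1 : B ≤ 2 * (τ * D2) := by omega
    have e2 : A * B ≤ (A - 1) * B := by
      calc A * B ≤ A * (2 * (τ * D2)) := Nat.mul_le_mul_left _ e1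
        _ = 2 * τ * (D2 * A) := by ring
        _ ≤ 2 * τ * (D * B) := Nat.mul_le_mul_left _ hD2A
        _ = τ * (2 * D) * B := by ring
        _ ≤ (A - 1) * B := Nat.mul_le_mul_right _ hτ1
    have e3 := Nat.le_of_mul_le_mul_right e2 hB1
    omega
  obtain ⟨L, hL, hLc, hLi⟩ := construct (p := p) A B D D2 τ hD21 hDp h1 h2
  have hLn : L.card ≤ n := by
    have e1 : A ≤ 2 * D * (τ + 1) := by
      have : (τ + 1) * (2 * D) = 2 * D * (τ + 1) := by ring
      omega
    have e2 : A * L.card ≤ A * (2 * D ^ 2 * D2 * B) := by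
      calc A * L.card ≤ 2 * D * (τ + 1) * L.card := Nat.mul_le_mul_right _ e1
        _ = 2 * D * (L.card * (τ + 1)) := by ring
        _ ≤ 2 * D * (D * D2 * (A * B)) := Nat.mul_le_mul_left _ hLc
        _ = A * (2 * D ^ 2 * D2 * B) := by ring
    have e3 : L.card ≤ 2 * D ^ 2 * D2 * B := Nat.le_of_mul_le_mul_left e2 (by omega)
    have e4 : A * L.card ≤ A * n := by
      calc A * L.card ≤ A * (2 * D ^ 2 * D2 * B) := Nat.mul_le_mul_left _ e3
        _ = 2 * D ^ 2 * B * (D2 * A) := by ring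
        _ ≤ 2 * D ^ 2 * B * (D * B) := Nat.mul_le_mul_left _ hD2A
        _ = 2 * D ^ 3 * B ^ 2 := by ring
        _ ≤ n * A := hDle
        _ = A * n := mul_comm _ _
    exact Nat.le_of_mul_le_mul_left e4 (by omega)
  obtain ⟨L', hL', hLn', hle⟩ := extend_lines A B n hn L hL hLn
  refine ⟨L', hL', hLn', D, ?_, ?_⟩
  · have e1 : (D + 1) ^ 3 ≤ (2 * D) ^ 3 := Nat.pow_le_pow_left (by omega) 3
    calc n * A ≤ 2 * (D + 1) ^ 3 * B ^ 2 := hDlt.le
      _ ≤ 2 * (2 * D) ^ 3 * B ^ 2 := by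
          apply Nat.mul_le_mul_right
          exact Nat.mul_le_mul_left _ e1
      _ = 16 * D ^ 3 * B ^ 2 := by ring
  · have e1 : D * B ≤ 2 * (D2 * A) := by nlinarith
    calc D ^ 2 * B ^ 2 = D * B * (D * B) := by ring
      _ ≤ D * B * (2 * (D2 * A)) := Nat.mul_le_mul_left _ e1
      _ = 2 * (D * D2 * (A * B)) := by ring
      _ ≤ 2 * (16 * ∑ l ∈ L, (pts A B l).card) := Nat.mul_le_mul_left _ hLi
      _ = 32 * ∑ l ∈ L, (pts A B l).card := by ring
      _ ≤ 32 * ∑ l ∈ L', (pts A B l).card := Nat.mul_le_mul_left _ hle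

/-- the order of magnitude for a box `A × B` and `n` lines; `T` stands for `(A B n)^(2/3)` -/
noncomputable def psi (p A B n : ℕ) (T : ℝ) : ℝ :=
  min ((A : ℝ) * B * p)
    (min ((n : ℝ) * B) ((A : ℝ) * B) + min ((n : ℝ) * A) T + n + (A : ℝ) * B * n / p)

theorem le_of_cube {x y : ℝ} (hy : 0 ≤ y) (h : x ^ 3 ≤ y ^ 3) : x ≤ y :=
  le_of_pow_le_pow_left₀ (by norm_num) hy h

/-- lower bound for the term `(A B n)^(2/3)` -/
theorem lower_T (A B n : ℕ) (hA1 : 1 ≤ A) (hAB : A ≤ B) (hB : B ≤ p) (hn : n ≤ p ^ 2 + p)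
    (T : ℝ) (hT3 : T ^ 3 = (((A : ℝ) * B) * n) ^ 2) :
    ∃ L : Finset (Set (ZMod p × ZMod p)), (∀ l ∈ L, IsLine l) ∧ L.card = n ∧
      min ((A : ℝ) * B * p) (min ((n : ℝ) * A) T) ≤
        256 * ((∑ l ∈ L, (pts A B l).card : ℕ) : ℝ) := by
  have hpR : (0 : ℝ) < p := by exact_mod_cast (Fact.out : p.Prime).pos
  have hB1 : 1 ≤ B := hA1.trans hAB
  have hA1R : (1 : ℝ) ≤ A := by exact_mod_cast hA1
  have hB1R : (1 : ℝ) ≤ B := by exact_mod_cast hB1
  have hABR : (A : ℝ) ≤ B := by exact_mod_cast hAB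
  rcases lt_or_ge n (2 * B) with h2B | h2B
  · obtain ⟨L, hL, hLn, hI⟩ := lower_vert A B n (hAB.trans hB) hn
    refine ⟨L, hL, hLn, ?_⟩
    have hIR : min ((n : ℝ) * B) ((A : ℝ) * B) ≤ ((∑ l ∈ L, (pts A B l).card : ℕ) : ℝ) := by
      exact_mod_cast hI
    have h2BR : (n : ℝ) ≤ 2 * B := by exact_mod_cast h2B.le
    have hnR : (0 : ℝ) ≤ n := Nat.cast_nonneg n
    have e1 : (n : ℝ) * A ≤ 2 * min ((n : ℝ) * B) ((A : ℝ) * B) := by
      rcases le_total ((n : ℝ) * B) ((A : ℝ) * B) with h | h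
      · rw [min_eq_left h]
        nlinarith
      · rw [min_eq_right h]
        nlinarith
    have e2 : min ((A : ℝ) * B * p) (min ((n : ℝ) * A) T) ≤ (n : ℝ) * A :=
      (min_le_right _ _).trans (min_le_left _ _)
    have e3 : (0 : ℝ) ≤ ((∑ l ∈ L, (pts A B l).card : ℕ) : ℝ) := Nat.cast_nonneg _
    linarith
  · rcases lt_or_ge (p ^ 3) (A * B * n) with hmn | hmn
    · obtain ⟨L, hL, hLn, hI, _⟩ := lower_top (p := p) A B n hn
      refine ⟨L, hL, hLn, ?_⟩
      have hIR : (n : ℝ) * ((A : ℝ) * B) ≤ p * ((∑ l ∈ L, (pts A B l).card : ℕ) : ℝ) := by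
        exact_mod_cast hI
      have hmnR : (p : ℝ) ^ 3 ≤ (A : ℝ) * B * n := by exact_mod_cast hmn.le
      have e1 : T ≤ (A : ℝ) * B * n / p := by
        apply le_of_cube (by positivity)
        rw [hT3, div_pow, le_div_iff₀ (by positivity)]
        calc ((A : ℝ) * B * n) ^ 2 * (p : ℝ) ^ 3
            ≤ ((A : ℝ) * B * n) ^ 2 * ((A : ℝ) * B * n) := by
              apply mul_le_mul_of_nonneg_left hmnR (by positivity)
          _ = ((A : ℝ) * B * n) ^ 3 := by ring
      have e2 : (A : ℝ) * B * n / p ≤ ((∑ l ∈ L, (pts A B l).card : ℕ) : ℝ) := by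
        rw [div_le_iff₀ hpR]
        linarith
      have e3 : min ((A : ℝ) * B * p) (min ((n : ℝ) * A) T) ≤ T :=
        (min_le_right _ _).trans (min_le_right _ _)
      have e4 : (0 : ℝ) ≤ ((∑ l ∈ L, (pts A B l).card : ℕ) : ℝ) := Nat.cast_nonneg _
      linarith
    · rcases le_or_gt ((A * B) ^ 2) n with hnm | hnm
      · obtain ⟨L, hL, hLn, _, hI⟩ := lower_top (p := p) A B n hn
        refine ⟨L, hL, hLn, ?_⟩
        have hIR : min (n : ℝ) ((A : ℝ) * B * p) ≤ ((∑ l ∈ L, (pts A B l).card : ℕ) : ℝ) := by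
          exact_mod_cast hI
        have hnmR : ((A : ℝ) * B) ^ 2 ≤ n := by exact_mod_cast hnm
        have e1 : T ≤ n := by
          apply le_of_cube (by positivity)
          rw [hT3]
          calc ((A : ℝ) * B * n) ^ 2 = ((A : ℝ) * B) ^ 2 * (n : ℝ) ^ 2 := by ring
            _ ≤ n * (n : ℝ) ^ 2 := by
                apply mul_le_mul_of_nonneg_right hnmR (by positivity)
            _ = (n : ℝ) ^ 3 := by ring
        have e3 : min ((A : ℝ) * B * p) (min ((n : ℝ) * A) T) ≤ min (n : ℝ) ((A : ℝ) * B * p) := by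
          apply le_min
          · exact ((min_le_right _ _).trans (min_le_right _ _)).trans e1
          · exact min_le_left _ _
        have e4 : (0 : ℝ) ≤ ((∑ l ∈ L, (pts A B l).card : ℕ) : ℝ) := Nat.cast_nonneg _
        linarith
      · rcases le_total (n * A) (2 * B ^ 2) with hnA | hnA
        · obtain ⟨L, hL, hLn, hI⟩ := lower_one (p := p) A B n hA1 hAB hn h2B hnA
          refine ⟨L, hL, hLn, ?_⟩
          have hIR : (n : ℝ) * A ≤ 64 * ((∑ l ∈ L, (pts A B l).card : ℕ) : ℝ) := by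
            exact_mod_cast hI
          have e2 : min ((A : ℝ) * B * p) (min ((n : ℝ) * A) T) ≤ (n : ℝ) * A :=
            (min_le_right _ _).trans (min_le_left _ _)
          have e4 : (0 : ℝ) ≤ ((∑ l ∈ L, (pts A B l).card : ℕ) : ℝ) := Nat.cast_nonneg _
          linarith
        · obtain ⟨L, hL, hLn, D, hD1, hD2⟩ := lower_two (p := p) A B n hA1 hAB hn hmn hnm hnA
          refine ⟨L, hL, hLn, ?_⟩
          have hD1R : (n : ℝ) * A ≤ 16 * (D : ℝ) ^ 3 * (B : ℝ) ^ 2 := by exact_mod_cast hD1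
          have hD2R : (D : ℝ) ^ 2 * (B : ℝ) ^ 2 ≤
              32 * ((∑ l ∈ L, (pts A B l).card : ℕ) : ℝ) := by exact_mod_cast hD2
          have e1 : T ≤ 8 * ((D : ℝ) ^ 2 * (B : ℝ) ^ 2) := by
            apply le_of_cube (by positivity)
            rw [hT3]
            calc ((A : ℝ) * B * n) ^ 2 = (B : ℝ) ^ 2 * ((n : ℝ) * A) ^ 2 := by ring
              _ ≤ (B : ℝ) ^ 2 * (16 * (D : ℝ) ^ 3 * (B : ℝ) ^ 2) ^ 2 := by
                  apply mul_le_mul_of_nonneg_left _ (by positivity)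
                  exact pow_le_pow_left₀ (by positivity) hD1R 2
              _ = 256 * ((D : ℝ) ^ 2 * (B : ℝ) ^ 2) ^ 3 := by ring
              _ ≤ 512 * ((D : ℝ) ^ 2 * (B : ℝ) ^ 2) ^ 3 := by
                  apply mul_le_mul_of_nonneg_right (by norm_num) (by positivity)
              _ = (8 * ((D : ℝ) ^ 2 * (B : ℝ) ^ 2)) ^ 3 := by ring
          have e2 : min ((A : ℝ) * B * p) (min ((n : ℝ) * A) T) ≤ T :=
            (min_le_right _ _).trans (min_le_right _ _)
          linarith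

theorem min_add_le {x a b : ℝ} (hx : 0 ≤ x) (ha : 0 ≤ a) (hb : 0 ≤ b) :
    min x (a + b) ≤ min x a + min x b := by
  rcases le_total x a with h1 | h1
  · rw [min_eq_left h1]
    have : 0 ≤ min x b := le_min hx hb
    have := min_le_left x (a + b)
    linarith
  · rcases le_total x b with h2 | h2
    · rw [min_eq_left h2]
      have : 0 ≤ min x a := le_min hx ha
      have := min_le_left x (a + b)
      linarith
    · rw [min_eq_right h1, min_eq_right h2]
      exact min_le_right _ _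

/-- **lower bound for a box** -/
theorem box_lower (A B n : ℕ) (hA1 : 1 ≤ A) (hAB : A ≤ B) (hB : B ≤ p) (hn : n ≤ p ^ 2 + p)
    (T : ℝ) (hT : 0 ≤ T) (hT3 : T ^ 3 = (((A : ℝ) * B) * n) ^ 2) :
    ∃ L : Finset (Set (ZMod p × ZMod p)), (∀ l ∈ L, IsLine l) ∧ L.card = n ∧
      psi p A B n T ≤ 260 * ((∑ l ∈ L, (pts A B l).card : ℕ) : ℝ) := by
  have hpR : (0 : ℝ) < p := by exact_mod_cast (Fact.out : p.Prime).pos
  obtain ⟨L1, hL1, hn1, hI1⟩ := lower_vert A B n (hAB.trans hB) hn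
  obtain ⟨L2, hL2, hn2, hI2, hI2'⟩ := lower_top (p := p) A B n hn
  obtain ⟨L3, hL3, hn3, hI3⟩ := lower_T A B n hA1 hAB hB hn T hT3
  obtain ⟨L, hL, hLn, h1, h2, h3⟩ : ∃ L : Finset (Set (ZMod p × ZMod p)),
      (∀ l ∈ L, IsLine l) ∧ L.card = n ∧
      ∑ l ∈ L1, (pts A B l).card ≤ ∑ l ∈ L, (pts A B l).card ∧
      ∑ l ∈ L2, (pts A B l).card ≤ ∑ l ∈ L, (pts A B l).card ∧
      ∑ l ∈ L3, (pts A B l).card ≤ ∑ l ∈ L, (pts A B l).card := by
    rcases le_total (∑ l ∈ L1, (pts A B l).card) (∑ l ∈ L2, (pts A B l).card) with h12 | h12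
    · rcases le_total (∑ l ∈ L2, (pts A B l).card) (∑ l ∈ L3, (pts A B l).card) with h23 | h23
      · exact ⟨L3, hL3, hn3, h12.trans h23, h23, le_rfl⟩
      · exact ⟨L2, hL2, hn2, h12, le_rfl, h23⟩
    · rcases le_total (∑ l ∈ L1, (pts A B l).card) (∑ l ∈ L3, (pts A B l).card) with h13 | h13
      · exact ⟨L3, hL3, hn3, h13, h12.trans h13, le_rfl⟩
      · exact ⟨L1, hL1, hn1, le_rfl, h12, h13⟩
  refine ⟨L, hL, hLn, ?_⟩
  have e1 : min ((n : ℝ) * B) ((A : ℝ) * B) ≤ ((∑ l ∈ L, (pts A B l).card : ℕ) : ℝ) := by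
    exact_mod_cast hI1.trans h1
  have e2 : (A : ℝ) * B * n / p ≤ ((∑ l ∈ L, (pts A B l).card : ℕ) : ℝ) := by
    rw [div_le_iff₀ hpR]
    have : (n : ℝ) * ((A : ℝ) * B) ≤ p * ((∑ l ∈ L, (pts A B l).card : ℕ) : ℝ) := by
      exact_mod_cast hI2.trans (Nat.mul_le_mul_left p h2)
    linarith
  have e3 : min (n : ℝ) ((A : ℝ) * B * p) ≤ ((∑ l ∈ L, (pts A B l).card : ℕ) : ℝ) := by
    exact_mod_cast hI2'.trans h2
  have e4 : min ((A : ℝ) * B * p) (min ((n : ℝ) * A) T) ≤
      256 * ((∑ l ∈ L, (pts A B l).card : ℕ) : ℝ) := by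
    refine hI3.trans ?_
    have : ((∑ l ∈ L3, (pts A B l).card : ℕ) : ℝ) ≤ ((∑ l ∈ L, (pts A B l).card : ℕ) : ℝ) := by
      exact_mod_cast h3
    linarith
  unfold psi
  have hx : (0 : ℝ) ≤ (A : ℝ) * B * p := by positivity
  have f1 : (0 : ℝ) ≤ min ((n : ℝ) * B) ((A : ℝ) * B) := le_min (by positivity) (by positivity)
  have f2 : (0 : ℝ) ≤ min ((n : ℝ) * A) T := le_min (by positivity) hT
  have f3 : (0 : ℝ) ≤ (n : ℝ) := Nat.cast_nonneg n
  have f4 : (0 : ℝ) ≤ (A : ℝ) * B * n / p := by positivity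
  have g1 := min_add_le hx (add_nonneg (add_nonneg f1 f2) f3) f4
  have g2 := min_add_le hx (add_nonneg f1 f2) f3
  have g3 := min_add_le hx f1 f2
  have g4 : min ((A : ℝ) * B * p) ((A : ℝ) * B * n / p) ≤ (A : ℝ) * B * n / p := min_le_right _ _
  have g5 : min ((A : ℝ) * B * p) (min ((n : ℝ) * B) ((A : ℝ) * B)) ≤
      min ((n : ℝ) * B) ((A : ℝ) * B) := min_le_right _ _
  rw [min_comm] at e3
  have e5 : (0 : ℝ) ≤ ((∑ l ∈ L, (pts A B l).card : ℕ) : ℝ) := Nat.cast_nonneg _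
  linarith

/-- **upper bound for a box in terms of `psi`** -/
theorem box_upper' (A B n : ℕ) (hAB : A ≤ B) (hB : B ≤ p)
    (L : Finset (Set (ZMod p × ZMod p))) (hL : ∀ l ∈ L, IsLine l) (hn : L.card = n)
    (T : ℝ) (hT : 0 ≤ T) (hT3 : T ^ 3 = (((A : ℝ) * B) * n) ^ 2) :
    ((∑ l ∈ L, (pts A B l).card : ℕ) : ℝ) ≤ 8 * psi p A B n T := by
  have hpR : (0 : ℝ) < p := by exact_mod_cast (Fact.out : p.Prime).pos
  have hp1 : (1 : ℝ) ≤ p := by exact_mod_cast (Fact.out : p.Prime).one_le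
  have h1 : ((∑ l ∈ L, (pts A B l).card : ℕ) : ℝ) ≤ (A : ℝ) * B * (p + 1) := by
    exact_mod_cast inc_le_mp A B L hL
  have h2 : ((∑ l ∈ L, (pts A B l).card : ℕ) : ℝ) ≤ (n : ℝ) * B := by
    rw [← hn]
    exact_mod_cast inc_le_nB A B hAB hB L hL
  have h3 : ((∑ l ∈ L, (pts A B l).card : ℕ) : ℝ) ≤ (A : ℝ) * B + n * A := by
    rw [← hn]
    exact_mod_cast inc_le_nA A B hB L hL
  have h4 := box_upper A B (hAB.trans hB) hB L hL T hT (by rw [hn]; exact hT3)
  rw [hn] at h4
  have f0 : (0 : ℝ) ≤ (A : ℝ) * B := by positivity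
  have f3 : (0 : ℝ) ≤ (n : ℝ) := Nat.cast_nonneg n
  have f4 : (0 : ℝ) ≤ (A : ℝ) * B * n / p := by positivity
  have f5 : (0 : ℝ) ≤ (n : ℝ) * A := by positivity
  have f2 : (0 : ℝ) ≤ min ((n : ℝ) * A) T := le_min (by positivity) hT
  have f6 : 8 * ((A : ℝ) * B) * n / p = 8 * ((A : ℝ) * B * n / p) := by ring
  unfold psi
  rw [mul_min_of_nonneg _ _ (by norm_num : (0 : ℝ) ≤ 8)]
  apply le_min
  · have : (A : ℝ) * B ≤ (A : ℝ) * B * p := le_mul_of_one_le_right f0 hp1
    linarith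
  · rcases le_total ((n : ℝ) * B) ((A : ℝ) * B) with h | h
    · rw [min_eq_left h]
      have : (0 : ℝ) ≤ (n : ℝ) * B := by positivity
      linarith
    · rw [min_eq_right h]
      rcases le_total ((n : ℝ) * A) T with h' | h'
      · rw [min_eq_left h']
        linarith
      · rw [min_eq_right h']
        linarith

end Pool.Agent.Lib.MP_fdf47d_co
end
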